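import Pool.Agent.Helper93.L6.Axs
import Pool.Agent.Helper83.LN6.CFam

/-!
# LN6-V4 (MP_730da0_ag): the bridge from coloured systems to winding systems
-/

namespace Pool.Agent.Helper93.L6

open Pool.Agent.Helper2.LN Pool.Agent.Helper96.LN3 Pool.Agent.Helper83.LN6

variable {k : ℕ}

/-- The families of positions and logarithms exist. -/
def HasFam (k : ℕ) : Prop := ∀ (Z : CSys k) (U : UFam k),
  (U.wu.map Z.wg).prod * (U.wv.map Z.wg).prod = (U.wv.map Z.wg).prod * (U.wu.map Z.wg).prod →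
  ∃ (W : Z.B → ℂ → ℂ → ℂ) (L : Z.B → Z.B → ℂ → ℂ → ℂ),
  CFam Z.Same ((U.wu.map Z.wg).prod).p ((U.wv.map Z.wg).prod).p (wn ((U.wu.map Z.wg).prod))
    (wn ((U.wv.map Z.wg).prod)) (per Z.B) W L

theorem hasFam (k : ℕ) : HasFam k := fun Z U h => by
  first
    | exact exists_CFam Z U h
    | exact exists_CFam Z U

/-- the words of the first family commute -/
theorem hc_cn (Z : CSys k) (i j : ℕ) (hij : i + 2 ≤ j) (hj : j + 1 < k) :
    ((cnU k i j hij hj).wu.map Z.wg).prod * ((cnU k i j hij hj).wv.map Z.wg).prod =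
      ((cnU k i j hij hj).wv.map Z.wg).prod * ((cnU k i j hij hj).wu.map Z.wg).prod := by
  have e1 : (((cnU k i j hij hj).wu.map Z.wg).prod) = Z.wg i := wd_single Z i
  have e2 : (((cnU k i j hij hj).wv.map Z.wg).prod) = Z.wg j := wd_single Z j
  rw [e1, e2]
  exact wg_comm Z i j hij hj

/-- the words of the second family commute -/
theorem hc_cm (Z : CSys k) (m : ℕ) (hm : 2 ≤ m) (hk : m ≤ k) :
    ((cmU k m hm hk).wu.map Z.wg).prod * ((cmU k m hm hk).wv.map Z.wg).prod =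
      ((cmU k m hm hk).wv.map Z.wg).prod * ((cmU k m hm hk).wu.map Z.wg).prod := by
  have e1 : (((cmU k m hm hk).wu.map Z.wg).prod) = Z.wg 0 := wd_single Z 0
  have e2 : (((cmU k m hm hk).wv.map Z.wg).prod) = ((List.range (m - 1)).map Z.wg).prod ^ m :=
    twist_prod Z.wg m
  rw [e1, e2]
  have h1 : (CW Z 0).s 0 * (CW Z 0).T m = (CW Z 0).T m * (CW Z 0).s 0 :=
    ((CW Z 0).T_commute_near m hk 0 (by omega)).symm.eq
  have h2 := congrArg (fun g : GR Z.Same => g.1.1) h1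
  have h3 : ((CW Z 0).s 0).1.1 = Z.wg 0 := by rw [CW_s Z 0 0 (by omega)]
  have h4 := (CW_T Z 0 m (by omega) hk).1
  have h5 : ((CW Z 0).s 0).1.1 * ((CW Z 0).T m).1.1 = ((CW Z 0).T m).1.1 * ((CW Z 0).s 0).1.1 := h2
  rw [h3, h4] at h5
  exact h5

theorem cor_pos {a b c d p : ℝ} (hp : 0 < p) (h : 0 ≤ (a - b) * (c - d)) (κ κ' : ℝ) :
    0 ≤ (a / p - κ - (b / p - κ)) * (c / p - κ' - (d / p - κ')) := by
  have e : (a / p - κ - (b / p - κ)) * (c / p - κ' - (d / p - κ')) = (a - b) * (c - d) / (p * p) := by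
    field_simp
    ring
  rw [e]
  positivity

theorem min_aff {a b c p : ℝ} (hp : 0 < p) (h : min a b ≤ c) (κ : ℝ) :
    min (a / p - κ) (b / p - κ) ≤ c / p - κ := by
  rcases min_le_iff.1 h with h1 | h1
  · refine (min_le_left _ _).trans ?_
    have := (div_le_div_iff_of_pos_right hp).2 h1
    linarith
  · refine (min_le_right _ _).trans ?_
    have := (div_le_div_iff_of_pos_right hp).2 h1
    linarith

theorem per_posR (Z : CSys k) : (0 : ℝ) < per Z.B := by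
  exact_mod_cast (per_pos (F := Z.B))

/-- the total winding -/
theorem all_const (hk : 2 ≤ k) (Z : CSys k) : ∃ t : ℤ, ∀ a b, Z.Gp a b →
    wn (((List.range (k - 1)).map Z.wg).prod ^ k) a b = t := by
  obtain ⟨κ, η, h⟩ := all_coc hk Z
  set A := ((List.range (k - 1)).map Z.wg).prod with hA
  have hgA : CGood Z.Same Z.pt A := good_prod Z _ fun i hi => by have := List.mem_range.1 hi; omega
  have hgp : ∀ (n : ℕ) (a b : Z.B), Z.Gp a b → Z.Gp ((A ^ n).p a) ((A ^ n).p b) := by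
    intro n a b hab
    have hg := CGood.pow (pt_inj' Z) hgA n
    exact ⟨(hg.rel a b).2 hab.1, fun he => hab.2 ((A ^ n).p.injective he)⟩
  have key : ∀ (n : ℕ) (a b : Z.B), Z.Gp a b → (A ^ n).d a b = n * κ + η a b - η ((A ^ n).p a) ((A ^ n).p b) := by
    intro n
    induction n with
    | zero =>
      intro a b _
      simp
    | succ n ih =>
      intro a b hab
      rw [pow_succ']
      rw [WG.mul_d, ih a b hab, h _ _ (hgp n a b hab), WG.mul_p, Equiv.Perm.mul_apply, Equiv.Perm.mul_apply]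
      push_cast
      ring
  have hre : ∀ a b, Z.Gp a b → wd (A ^ k) a b = (k * per Z.B : ℕ) * κ / (2 * Real.pi * Complex.I) := by
    intro a b hab
    unfold wd
    rw [← pow_mul, key _ a b hab]
    have hp : (A ^ (k * per Z.B)).p = 1 := by rw [pow_p, mul_comm, pow_mul, per_pow, one_pow]
    rw [hp]
    simp
  by_cases hne : ∃ a b, Z.Gp a b
  · obtain ⟨a₀, b₀, h0⟩ := hne
    refine ⟨wn (A ^ k) a₀ b₀, fun a b hab => ?_⟩
    unfold wn
    rw [hre a b hab, hre a₀ b₀ h0]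
  · exact ⟨0, fun a b hab => absurd ⟨a, b, hab⟩ hne⟩

theorem col_pow (hk : 2 ≤ k) (Z : CSys k) (j : ℕ) (a : Z.B) :
    (((Z.S.s 0 ^ j) a : Z.B) : ℂ × ℂ).1 = (Z.C.s 0 ^ j) ⟨(a : ℂ × ℂ).1, Z.col _ (base_mem k) _ a.2⟩ := by
  induction j with
  | zero => rfl
  | succ j ih =>
    rw [pow_succ', pow_succ', Equiv.Perm.mul_apply, Equiv.Perm.mul_apply, col_s Z 0 (by omega)]
    congr 2
    exact Subtype.ext ih

theorem CW_s_pow (hk : 2 ≤ k) (Z : CSys k) (κ : ℝ) (j : ℕ) (a : Z.B) :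
    (CW Z κ).s 0 ^ j • a = (Z.S.s 0 ^ j) a := by
  induction j with
  | zero => rfl
  | succ j ih => rw [pow_succ', mul_smul, ih, CW_s_smul Z κ 0 (by omega), pow_succ', Equiv.Perm.mul_apply]

theorem bridge_of (hk : 5 ≤ k) (hfam : HasFam k) : Pool.Agent.Helper2.LN6.SBridge k := by
  intro Z hgp
  classical
  have hfin : Finite Z.B := Z.fin
  have hp := per_posR Z
  -- the minimal winding
  have hfp : Finite {p : Z.B × Z.B // Z.Gp p.1 p.2} := inferInstance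
  have hnp : Nonempty {p : Z.B × Z.B // Z.Gp p.1 p.2} := by
    obtain ⟨a, b, h⟩ := hgp
    exact ⟨⟨(a, b), h⟩⟩
  obtain ⟨⟨⟨a₀, b₀⟩, h0⟩, hmin⟩ := Finite.exists_min fun p : {p : Z.B × Z.B // Z.Gp p.1 p.2} => wn (Z.wg 0) p.1.1 p.1.2
  have hmin' : ∀ a b, Z.Gp a b → wn (Z.wg 0) a₀ b₀ ≤ wn (Z.wg 0) a b := fun a b h => hmin ⟨(a, b), h⟩
  set c := wn (Z.wg 0) a₀ b₀ with hc
  set κ : ℝ := (c : ℝ) / per Z.B with hκ
  obtain ⟨t, ht⟩ := all_const (by omega : 2 ≤ k) Z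
  have h2 := wn_two Z hk c hmin'
  refine ⟨GR Z.Same, inferInstance, inferInstance, CW Z κ, (t : ℝ) / per Z.B - κ * ((k : ℤ) * ((k - 1 : ℕ) : ℤ) : ℤ), ?_,
    fun i hi a => CW_s_smul Z κ i hi a, fun a b => Iff.rfl⟩
  have hRS : ∀ a b, (CW Z κ).R a b ↔ Z.Same a b := fun a b => Iff.rfl
  refine ⟨hk, ?_, ?_, ?_, ?_, ?_, ?_, ?_, ?_⟩
  · -- blocks
    intro x y
    obtain ⟨j, hj⟩ := Z.blk ⟨(x : ℂ × ℂ).1, Z.col _ (base_mem k) _ x.2⟩ ⟨(y : ℂ × ℂ).1, Z.col _ (base_mem k) _ y.2⟩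
    refine ⟨j, ?_⟩
    rw [CW_s_pow (by omega) Z κ j x]
    show (((Z.S.s 0 ^ j) x : Z.B) : ℂ × ℂ).1 = (y : ℂ × ℂ).1
    rw [col_pow (by omega) Z j x, hj]
  · intro x y hR hxy
    rw [v_s Z κ 0 (by omega), hκ]
    have h1 := hmin' x y ⟨hR, hxy⟩
    have h3 : (c : ℝ) ≤ wn (Z.wg 0) x y := by exact_mod_cast h1
    have := (div_le_div_iff_of_pos_right hp).2 h3
    linarith
  · refine ⟨a₀, b₀, h0.1, h0.2, ?_⟩
    rw [v_s Z κ 0 (by omega), hκ]
    ring
  · intro x y hR hxy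
    rw [v_T Z κ k (by omega) le_rfl, ht x y ⟨hR, hxy⟩]
  · intro m hm1 hm2 x y z hxy hyz h1 h2 h3
    obtain ⟨W, L, hF⟩ := hfam Z (cmU k m hm1 hm2.le) (hc_cm Z m hm1 hm2.le)
    have hw : (((cmU k m hm1 hm2.le).wv.map Z.wg).prod) = ((List.range (m - 1)).map Z.wg).prod ^ m :=
      twist_prod Z.wg m
    have h4 := hF.ultra₂ x y z hxy hyz h1 h2 h3
    rw [hw] at h4
    rw [v_T Z κ m (by omega) hm2.le, v_T Z κ m (by omega) hm2.le, v_T Z κ m (by omega) hm2.le]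
    refine min_aff hp ?_ _
    exact_mod_cast h4
  · intro x y z hxy hxz h1 h2 h3
    obtain ⟨W, L, hF⟩ := hfam Z (cnU k 0 2 (by omega) (by omega)) (hc_cn Z 0 2 (by omega) (by omega))
    have h4 := hF.opp x y z hxy hxz h1 h2 h3
    have e1 : (((cnU k 0 2 (by omega) (by omega)).wu.map Z.wg).prod) = Z.wg 0 := wd_single Z 0
    have e2 : (((cnU k 0 2 (by omega) (by omega)).wv.map Z.wg).prod) = Z.wg 2 := wd_single Z 2
    rw [e1, e2] at h4
    rw [v_s Z κ 0 (by omega), v_s Z κ 0 (by omega), v_s Z κ 2 (by omega), v_s Z κ 2 (by omega)]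
    refine cor_pos hp ?_ _ _
    exact_mod_cast h4
  · intro m hm1 hm2 x y z hxy hxz h1 h2 h3
    obtain ⟨W, L, hF⟩ := hfam Z (cmU k m (by omega) hm2.le) (hc_cm Z m (by omega) hm2.le)
    have h4 := hF.opp x y z hxy hxz h1 h2 h3
    have e1 : (((cmU k m (by omega) hm2.le).wu.map Z.wg).prod) = Z.wg 0 := wd_single Z 0
    have hw : (((cmU k m (by omega) hm2.le).wv.map Z.wg).prod) = ((List.range (m - 1)).map Z.wg).prod ^ m :=
      twist_prod Z.wg m
    rw [e1, hw] at h4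
    rw [v_s Z κ 0 (by omega), v_s Z κ 0 (by omega), v_T Z κ m (by omega) hm2.le, v_T Z κ m (by omega) hm2.le]
    refine cor_pos hp ?_ _ _
    exact_mod_cast h4
  · intro x
    obtain ⟨W, L, hF⟩ := hfam Z (cnU k 0 2 (by omega) (by omega)) (hc_cn Z 0 2 (by omega) (by omega))
    have e1 : (((cnU k 0 2 (by omega) (by omega)).wu.map Z.wg).prod) = Z.wg 0 := wd_single Z 0
    have e2 : (((cnU k 0 2 (by omega) (by omega)).wv.map Z.wg).prod) = Z.wg 2 := wd_single Z 2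
    rw [e1, e2] at hF
    have hcm : ∀ a, (Z.wg 0).p ((Z.wg 2).p a) = (Z.wg 2).p ((Z.wg 0).p a) := by
      intro a
      have := Z.S.s_comm 0 2 (by omega) (by omega)
      exact congrArg (fun g : Equiv.Perm Z.B => g a) this
    have h4 := hF.tr c (fun a b h h' => hmin' a b ⟨h, h'⟩) (fun a b h h' => h2 a b ⟨h, h'⟩) hcm
      (fun a => same_ss Z 0 2 (by omega) (by omega) a) x
    have e3 : (CW Z κ).s 2 • x = (Z.wg 2).p x := CW_s_smul Z κ 2 (by omega) x
    have e4 : ((CW Z κ).s 0)⁻¹ • (CW Z κ).s 2 • x = (Z.wg 0).p⁻¹ ((Z.wg 2).p x) := by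
      rw [inv_smul_eq_iff, e3, CW_s_smul Z κ 0 (by omega)]
      exact (Equiv.apply_symm_apply (Z.S.s 0) _).symm
    rw [e4, v_s Z κ 0 (by omega), v_s Z κ 2 (by omega)]
    have pos : ∀ n : ℤ, c < n → 0 < (n : ℝ) / per Z.B - κ := by
      intro n hn
      have h5 : (c : ℝ) < n := by exact_mod_cast hn
      have := (div_lt_div_iff_of_pos_right hp).2 h5
      rw [hκ]
      linarith
    rcases h4 with h4 | h4 | h4
    · exact Or.inl h4
    · exact Or.inr (Or.inl (pos _ h4))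
    · exact Or.inr (Or.inr (pos _ h4))

/-- The bridge. -/
theorem bridge (hk : 5 ≤ k) : Pool.Agent.Helper2.LN6.SBridge k := bridge_of hk (hasFam k)

end Pool.Agent.Helper93.L6
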