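import Pool.Agent.Helper93.L6.FamT
import Pool.Agent.Helper83.LN6.CDefs

/-!
# LN6-V2 (MP_730da0_ag): the two families as `UFam`
-/

namespace Pool.Agent.Helper93.L6

open Pool.Agent.Helper2.LN Pool.Agent.Helper96.LN3 Pool.Agent.Helper83.LN6

variable {k : ℕ}

theorem neg_one_hl : (-1 : ℂ) ∈ Hl := by simp [Hl]

/-- Two disjoint pairs of neighbours. -/
noncomputable def cnU (k i j : ℕ) (hij : i + 2 ≤ j) (hj : j + 1 < k) : UFam k where
  c := cn k i j
  diff := (cn_diff k i j).differentiableOn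
  conf := fun u hu v hv => cn_conf i j hij hj u v hu hv
  gen := by
    refine Ord_subset_Gen k (cn_ord i j hij hj (-1) (-1) neg_one_hl neg_one_hl ?_ ?_) <;>
    · simp only [Complex.neg_im, Complex.one_im, neg_zero, abs_zero]
      positivity
  wu := [i]
  wv := [j]
  ltu := by
    intro l hl
    rw [List.mem_singleton.1 hl]
    omega
  ltv := by
    intro l hl
    rw [List.mem_singleton.1 hl]
    exact hj
  tru := by
    intro W _ S X hX φ u hu v hv
    have h : IsFam S i j X := ⟨hX.cont, hX.mem, hX.one⟩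
    simpa using fam_tru S i j hij hj X h φ u v hu hv
  trv := by
    intro W _ S X hX φ u hu v hv
    have h : IsFam S i j X := ⟨hX.cont, hX.mem, hX.one⟩
    simpa using fam_trv S i j hij hj X h φ u v hu hv

/-- The word of the full twist. -/
def twist (m : ℕ) : List ℕ := (List.replicate m (List.range (m - 1))).flatten

theorem twist_prod {G : Type*} [Monoid G] (s : ℕ → G) (m : ℕ) :
    ((twist m).map s).prod = (((List.range (m - 1)).map s).prod) ^ m := by
  unfold twist
  rw [List.map_flatten, List.prod_flatten, List.map_replicate, List.map_replicate, List.prod_replicate]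

theorem twist_lt (m i : ℕ) (h : i ∈ twist m) : i + 1 < m := by
  unfold twist at h
  rw [List.mem_flatten] at h
  obtain ⟨l, hl, hi⟩ := h
  rw [List.eq_of_mem_replicate hl, List.mem_range] at hi
  omega

theorem cm_one_ord (k m : ℕ) (hm : 2 ≤ m) (v : ℝ) (hv : v < 0) : cm k m (-1) v ∈ Ord k := by
  refine cm_ord hm (-1) neg_one_hl ?_ v hv
  rw [Complex.exp_re]
  simp
  positivity

/-- the sections over the real points of the nested family -/
theorem famM_real {W : Type} [TopologicalSpace W] (S : Sys k W) {m : ℕ} (hm : 2 ≤ m)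
    (X : S.F (base k) → ℂ → ℂ → W) (hX : IsFamM S m X) (φ : S.F (base k)) :
    X φ (-1) (-2) = S.val φ (cm k m (-1) (-2)) := by
  have hc : Continuous fun t : Set.Icc (-2 : ℝ) (-1) => cm k m (-1) ((t : ℝ) : ℂ) := by
    have h1 := (cm_diff k m).continuous
    exact h1.comp (f := fun t : Set.Icc (-2 : ℝ) (-1) => ((-1 : ℂ), ((t : ℝ) : ℂ))) (by fun_prop)
  have hmem : ∀ t : Set.Icc (-2 : ℝ) (-1), (((t : ℝ) : ℂ)) ∈ Hl := by
    intro t
    show (((t : ℝ) : ℂ)).re < 0
    have := t.2.2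
    rw [Complex.ofReal_re]
    linarith
  have hs : Continuous fun t : Set.Icc (-2 : ℝ) (-1) => X φ (-1) ((t : ℝ) : ℂ) := by
    refine (hX.cont φ).comp_continuous (f := fun t : Set.Icc (-2 : ℝ) (-1) => ((-1 : ℂ), ((t : ℝ) : ℂ))) (by fun_prop) ?_
    intro t
    exact ⟨neg_one_hl, hmem t⟩
  have hp : PreconnectedSpace (Set.Icc (-2 : ℝ) (-1)) := Subtype.preconnectedSpace isPreconnected_Icc
  have ho : ∀ t : Set.Icc (-2 : ℝ) (-1), cm k m (-1) ((t : ℝ) : ℂ) ∈ Ord k := fun t =>
    cm_one_ord k m hm t (by have := t.2.2; linarith)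
  have h2 := S.T_along (Ord k) (convex_Ord k) ((Ord_subset_Gen k).trans (Gen_subset_Conf k))
    (Set.Icc (-2 : ℝ) (-1)) ⟨_, hc⟩ ho ⟨_, hs⟩ (fun t => hX.mem φ _ neg_one_hl _ (hmem t))
    ⟨-1, by norm_num, le_rfl⟩ ⟨-2, le_rfl, by norm_num⟩
  have h3 : X φ (-1) ((-2 : ℝ) : ℂ) = S.T (cm k m (-1) ((-1 : ℝ) : ℂ)) (cm k m (-1) ((-2 : ℝ) : ℂ))
      (X φ (-1) ((-1 : ℝ) : ℂ)) := h2
  have ha := cm_one_ord k m hm (-1) (by norm_num)
  have hb := cm_one_ord k m hm (-2) (by norm_num)
  have hiff : ∀ q ∈ Ord k, ∀ i j, (q i).re < (q j).re ↔ i < j := by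
    intro q hq i j
    constructor
    · intro h
      rcases lt_trichotomy i j with h1 | h1 | h1
      · exact h1
      · rw [h1] at h
        exact absurd h (lt_irrefl _)
      · exact absurd (hq j i h1) (not_lt.2 h.le)
    · intro h
      exact hq i j h
  have h4 : X φ (-1) ((-1 : ℝ) : ℂ) = S.val φ (cm k m (-1) ((-1 : ℝ) : ℂ)) := by
    have := hX.one φ
    simpa using this
  rw [h4, S.T_val _ _ (Ord_subset_Gen k ha) (Ord_subset_Gen k hb)
    (fun i j => by rw [hiff _ ha, hiff _ hb]) φ] at h3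
  simpa using h3

theorem two_hl {v : ℂ} (hv : v ∈ Hl) : 2 * v ∈ Hl := by
  show (2 * v).re < 0
  have h : v.re < 0 := hv
  simp
  linarith

theorem half_hl {v : ℂ} (hv : v ∈ Hl) : v / 2 ∈ Hl := by
  show (v / 2).re < 0
  have h : v.re < 0 := hv
  simp
  linarith

theorem isFamM_of_isUF {W : Type} [TopologicalSpace W] (S : Sys k W) {m : ℕ} (hm : 2 ≤ m) (hk : m ≤ k)
    (X : S.F (base k) → ℂ → ℂ → W) (hX : IsUF (fun u v => cm k m u (2 * v)) S X) :
    IsFamM S m fun φ u v => X φ u (v / 2) := by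
  have hmem : ∀ φ, ∀ u ∈ Hl, ∀ v ∈ Hl, X φ u (v / 2) ∈ S.F (cm k m u v) := by
    intro φ u hu v hv
    have h1 := hX.mem φ u hu (v / 2) (half_hl hv)
    have h2 : 2 * (v / 2) = v := by ring
    simp only [h2] at h1
    exact h1
  have hcont : ∀ φ, ContinuousOn (fun z : ℂ × ℂ => X φ z.1 (z.2 / 2)) (Hl ×ˢ Hl) := by
    intro φ
    refine (hX.cont φ).comp (f := fun z : ℂ × ℂ => (z.1, z.2 / 2)) (by fun_prop) ?_
    intro z hz
    exact ⟨hz.1, half_hl hz.2⟩
  obtain ⟨Y, hY⟩ := exists_famM S hm hk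
  have key : ∀ φ, ∀ u ∈ Hl, ∀ v ∈ Hl, X φ u (v / 2) = Y φ u v := by
    intro φ u hu v hv
    have hp : PreconnectedSpace (Hl ×ˢ Hl : Set (ℂ × ℂ)) := by
      have h1 : Convex ℝ Hl := convex_halfSpace_re_lt (0 : ℝ)
      exact Subtype.preconnectedSpace (h1.prod h1).isPreconnected
    have h1 := S.uniq (Hl ×ˢ Hl : Set (ℂ × ℂ))
      ⟨fun z => cm k m z.1.1 z.1.2, (cm_diff k m).continuous.comp continuous_subtype_val⟩
      (fun z => cm_conf hm hk z.1.1 z.1.2 z.2.1 z.2.2)
      ⟨fun z => X φ z.1.1 (z.1.2 / 2), (hcont φ).comp_continuous continuous_subtype_val fun z => z.2⟩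
      ⟨fun z => Y φ z.1.1 z.1.2, (hY.cont φ).comp_continuous continuous_subtype_val fun z => z.2⟩
      (fun z => hmem φ z.1.1 z.2.1 z.1.2 z.2.2) (fun z => hY.mem φ z.1.1 z.2.1 z.1.2 z.2.2)
      ⟨⟨(-1, -2), neg_one_hl, by show (-2 : ℂ).re < 0; simp⟩, by
        show X φ (-1) (-2 / 2) = Y φ (-1) (-2)
        have h2 : (-2 / 2 : ℂ) = -1 := by norm_num
        have h3 : (2 * (-1) : ℂ) = -2 := by norm_num
        have h4 := hX.one φ
        simp only [h3] at h4
        rw [h2, h4, famM_real S hm Y hY φ]⟩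
    exact congrArg (fun F : C((Hl ×ˢ Hl : Set (ℂ × ℂ)), W) => F ⟨(u, v), hu, hv⟩) h1
  refine ⟨hcont, hmem, ?_⟩
  intro φ
  rw [key φ _ neg_one_hl _ neg_one_hl, hY.one]

/-- The nested family. -/
noncomputable def cmU (k m : ℕ) (hm : 2 ≤ m) (hk : m ≤ k) : UFam k where
  c := fun u v => cm k m u (2 * v)
  diff := by
    refine Differentiable.differentiableOn ?_
    exact (cm_diff k m).comp (f := fun z : ℂ × ℂ => (z.1, 2 * z.2)) (by fun_prop)
  conf := fun u hu v hv => cm_conf hm hk u (2 * v) hu (two_hl hv)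
  gen := by
    have h := cm_one_ord k m hm (-2) (by norm_num)
    have h3 : (2 * (-1) : ℂ) = ((-2 : ℝ) : ℂ) := by norm_num
    rw [h3]
    exact Ord_subset_Gen k h
  wu := [0]
  wv := twist m
  ltu := by
    intro l hl
    rw [List.mem_singleton.1 hl]
    omega
  ltv := by
    intro l hl
    have := twist_lt m l hl
    omega
  tru := by
    intro W _ S X hX φ u hu v hv
    have h := famM_tru S hm hk _ (isFamM_of_isUF S hm hk X hX) φ u (2 * v) hu (two_hl hv)
    have h2 : 2 * v / 2 = v := by ring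
    simp only [h2] at h
    simpa using h
  trv := by
    intro W _ S X hX φ u hu v hv
    have h := famM_trv S hm hk _ (isFamM_of_isUF S hm hk X hX) φ u (2 * v) hu (two_hl hv)
    have h2 : 2 * v / 2 = v := by ring
    have h3 : (2 * v + 2 * Real.pi * Complex.I) / 2 = v + Real.pi * Complex.I := by ring
    simp only [h2, h3] at h
    rw [twist_prod]
    exact h

end Pool.Agent.Helper93.L6
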