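import Pool.Agent.Helper93.L6.Bridge
import Pool.Agent.Helper93.L6.UFams
import Pool.Agent.Helper83.LN6.CLog
import Pool.Agent.Helper83.LN6.CWind
import Pool.Agent.Helper83.LN6.CAll
import Pool.Agent.Helper83.LN6.CUltra
import Pool.Agent.Helper83.LN6.CTr
import Pool.Agent.Helper91.LN6.B4
import Pool.Agent.Helper2.LN6.Core

/-!
# LN6-V3 (MP_730da0_ag): the winding system of a coloured system satisfies the axioms
-/

namespace Pool.Agent.Helper93.L6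

open Pool.Agent.Helper2.LN Pool.Agent.Helper96.LN3 Pool.Agent.Helper83.LN6

variable {k : ℕ} (Z : CSys k)

theorem same_s' (i : ℕ) (hi : i + 1 < k) (a b : Z.B) : Z.Same ((Z.wg i).p a) ((Z.wg i).p b) ↔ Z.Same a b :=
  same_s Z i hi a b

/-- The winding system. -/
noncomputable def CW (κ : ℝ) : LN6.WSys k (GR Z.Same) Z.B :=
  wsys k Z.wg (same_equiv Z) (same_s' Z) (fun i hi x => same_ss Z i 0 hi (by omega) x)
    (fun i j hij hj => wg_comm Z i j hij hj) (fun i hi => wg_braid Z i hi) κ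

theorem pt_inj' : ∀ a b, Z.Same a b → Z.pt a = Z.pt b → a = b := fun _ _ h h' => pt_inj Z h h'

theorem CW_s (κ : ℝ) (i : ℕ) (hi : i + 1 < k) :
    (CW Z κ).s i = ⟨(Z.wg i, Multiplicative.ofAdd 1, Equiv.swap i (i + 1)), same_s' Z i hi⟩ := by
  show (if h : i + 1 < k then _ else (1 : GR Z.Same)) = _
  rw [dif_pos hi]

theorem CW_s_smul (κ : ℝ) (i : ℕ) (hi : i + 1 < k) (a : Z.B) : (CW Z κ).s i • a = Z.S.s i a := by
  rw [CW_s Z κ i hi]
  rfl

theorem CW_up (κ : ℝ) (n : ℕ) (hn : n < k) : ((CW Z κ).up 0 n).1.1 = ((List.range n).map Z.wg).prod ∧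
    Multiplicative.toAdd ((CW Z κ).up 0 n).1.2.1 = n := by
  induction n with
  | zero => exact ⟨rfl, rfl⟩
  | succ n ih =>
    obtain ⟨h1, h2⟩ := ih (by omega)
    have e : (CW Z κ).up 0 (n + 1) = (CW Z κ).up 0 n * (CW Z κ).s (0 + n) := rfl
    rw [zero_add, CW_s Z κ n hn] at e
    constructor
    · rw [e]
      show ((CW Z κ).up 0 n).1.1 * Z.wg n = _
      rw [h1, List.range_succ, List.map_append, List.prod_append]
      simp
    · rw [e]
      show Multiplicative.toAdd (((CW Z κ).up 0 n).1.2.1 * Multiplicative.ofAdd 1) = _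
      rw [toAdd_mul, h2]
      simp

theorem GR_pow (g : GR Z.Same) (n : ℕ) : (g ^ n).1.1 = g.1.1 ^ n ∧
    Multiplicative.toAdd (g ^ n).1.2.1 = n * Multiplicative.toAdd g.1.2.1 := by
  constructor
  · rfl
  · show Multiplicative.toAdd (g.1.2.1 ^ n) = _
    rw [toAdd_pow]
    simp

theorem CW_T (κ : ℝ) (m : ℕ) (hm1 : 1 ≤ m) (hm : m ≤ k) :
    ((CW Z κ).T m).1.1 = ((List.range (m - 1)).map Z.wg).prod ^ m ∧
      Multiplicative.toAdd ((CW Z κ).T m).1.2.1 = (m : ℤ) * ((m - 1 : ℕ) : ℤ) := by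
  rw [← (CW Z κ).up_pow_eq_T m hm]
  obtain ⟨h1, h2⟩ := CW_up Z κ (m - 1) (by omega)
  obtain ⟨h3, h4⟩ := GR_pow Z ((CW Z κ).up 0 (m - 1)) m
  rw [h3, h4, h1, h2]
  exact ⟨rfl, rfl⟩

theorem good_prod (l : List ℕ) (hl : ∀ i ∈ l, i + 1 < k) : CGood Z.Same Z.pt ((l.map Z.wg).prod) := by
  refine CGood.prod (pt_inj' Z) _ ?_
  intro g hg
  obtain ⟨i, hi, rfl⟩ := List.mem_map.1 hg
  exact wg_good Z i (hl i hi)

theorem vv_good (κ : ℝ) (γ : GR Z.Same) (h : CGood Z.Same Z.pt γ.1.1) (x y : Z.B) :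
    vv κ γ x y = (wn γ.1.1 x y : ℝ) / per Z.B - κ * (Multiplicative.toAdd γ.1.2.1 : ℤ) := by
  unfold vv
  rw [CGood.wd_eq (pt_inj' Z) h x y, CGood.wd_eq (pt_inj' Z) h y x, CGood.wn_sym (pt_inj' Z) h y x]
  simp

theorem v_s (κ : ℝ) (i : ℕ) (hi : i + 1 < k) (x y : Z.B) :
    (CW Z κ).v ((CW Z κ).s i) x y = (wn (Z.wg i) x y : ℝ) / per Z.B - κ := by
  rw [CW_s Z κ i hi]
  show vv κ _ x y = _
  rw [vv_good Z κ _ (wg_good Z i hi)]
  simp

theorem v_T (κ : ℝ) (m : ℕ) (hm1 : 1 ≤ m) (hm : m ≤ k) (x y : Z.B) :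
    (CW Z κ).v ((CW Z κ).T m) x y =
      (wn (((List.range (m - 1)).map Z.wg).prod ^ m) x y : ℝ) / per Z.B - κ * ((m : ℤ) * ((m - 1 : ℕ) : ℤ) : ℤ) := by
  obtain ⟨h1, h2⟩ := CW_T Z κ m hm1 hm
  have hg : CGood Z.Same Z.pt ((CW Z κ).T m).1.1 := by
    rw [h1]
    exact CGood.pow (pt_inj' Z) (good_prod Z _ fun i hi => by have := List.mem_range.1 hi; omega) m
  show vv κ _ x y = _
  rw [vv_good Z κ _ hg, h1, h2]

/-- the words of the families -/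
theorem wd_single (i : ℕ) : ([i].map Z.wg).prod = Z.wg i := by simp

theorem wn_two (hk : 5 ≤ k) (c : ℤ) (h : ∀ a b, Z.Gp a b → c ≤ wn (Z.wg 0) a b) (a b : Z.B) (hab : Z.Gp a b) :
    c ≤ wn (Z.wg 2) a b := by
  have step : ∀ i, i + 2 < k → Z.wg (i + 1) = (Z.wg i * Z.wg (i + 1)) * Z.wg i * (Z.wg i * Z.wg (i + 1))⁻¹ := by
    intro i hi
    rw [wg_braid Z i hi]
    group
  have key : ∀ i, i + 2 < k → (∀ a b, Z.Gp a b → c ≤ wn (Z.wg i) a b) → ∀ a b, Z.Gp a b → c ≤ wn (Z.wg (i + 1)) a b := by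
    intro i hi h a b hab
    set g := Z.wg i * Z.wg (i + 1) with hg
    have hgood : CGood Z.Same Z.pt g := CGood.mul (pt_inj' Z) (wg_good Z i (by omega)) (wg_good Z (i + 1) (by omega))
    have h1 := wn_conj g (Z.wg i) (g.p⁻¹ a) (g.p⁻¹ b)
    have e1 : ∀ x, g.p (g.p⁻¹ x) = x := fun x => Equiv.apply_symm_apply g.p x
    rw [e1, e1, ← step i hi] at h1
    rw [h1]
    refine h _ _ ⟨?_, fun he => hab.2 (g.p⁻¹.injective he)⟩
    rw [← hgood.rel, e1, e1]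
    exact hab.1
  exact key 1 (by omega) (key 0 (by omega) h) a b hab

end Pool.Agent.Helper93.L6
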