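import Pool.Agent.Helper96.LN3.Wind
import Pool.Agent.Helper26.LN6.Defs

/-!
# LN6-V1 (MP_730da0_ag): from cocycles to an abstract winding system

`F` finite, `g i : WG F` permutations with cocycles, `R` an equivalence relation.  The group is the group of the triples (permutation with cocycle, exponent, permutation of `ℕ`) which respect `R`.
-/

namespace Pool.Agent.Helper93.L6

open Pool.Agent.Helper96.LN3

/-- The group. -/
def GR {F : Type} (R : F → F → Prop) : Subgroup (WG F × Multiplicative ℤ × Equiv.Perm ℕ) where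
  carrier := {g | ∀ x y, R (g.1.p x) (g.1.p y) ↔ R x y}
  mul_mem' := by
    intro a b ha hb x y
    show R (a.1.p (b.1.p x)) (a.1.p (b.1.p y)) ↔ R x y
    rw [ha, hb]
  one_mem' := by
    intro x y
    exact Iff.rfl
  inv_mem' := by
    intro a ha x y
    show R (a.1.p⁻¹ x) (a.1.p⁻¹ y) ↔ R x y
    rw [← ha]
    simp

variable {F : Type} {R : F → F → Prop}

instance : MulAction (GR R) F where
  smul g x := g.1.1.p x
  one_smul x := rfl
  mul_smul g h x := rfl

theorem GR_smul (g : GR R) (x : F) : g • x = g.1.1.p x := rfl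

/-- mean winding, symmetrised -/
noncomputable def vv (κ : ℝ) (g : GR R) (x y : F) : ℝ :=
  ((wd g.1.1 x y).re + (wd g.1.1 y x).re) / 2 / per F - κ * (Multiplicative.toAdd g.1.2.1 : ℤ)

theorem wd_mul_of_comm [Finite F] (g h : WG F) (hgh : g * h = h * g) (x y : F) :
    wd (g * h) x y = wd g x y + wd h x y := by
  have h1 : (g * h) ^ per F = g ^ per F * h ^ per F := (show Commute g h from hgh).mul_pow _
  unfold wd
  rw [h1]
  have hp : (h ^ per F).p = 1 := by rw [pow_p, per_pow]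
  simp only [WG.mul_d, hp, Equiv.Perm.one_apply]
  ring

theorem pow_d_sum (g : WG F) (O : Finset (F × F)) (hg : ∀ p ∈ O, (g.p p.1, g.p p.2) ∈ O) (n : ℕ) :
    ∑ p ∈ O, (g ^ n).d p.1 p.2 = n * ∑ p ∈ O, g.d p.1 p.2 := by
  classical
  have hinj : Set.InjOn (fun p : F × F => (g.p p.1, g.p p.2)) O := by
    intro p _ q _ h
    have h1 := congrArg Prod.fst h
    have h2 := congrArg Prod.snd h
    exact Prod.ext (g.p.injective h1) (g.p.injective h2)
  have himg : O.image (fun p : F × F => (g.p p.1, g.p p.2)) = O := by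
    refine Finset.eq_of_subset_of_card_le (Finset.image_subset_iff.2 hg) ?_
    rw [Finset.card_image_of_injOn hinj]
  have hshift : ∀ f : F → F → ℂ, ∑ p ∈ O, f (g.p p.1) (g.p p.2) = ∑ p ∈ O, f p.1 p.2 := by
    intro f
    conv_rhs => rw [← himg]
    rw [Finset.sum_image hinj]
  induction n with
  | zero => simp
  | succ n ih =>
    rw [pow_succ]
    simp only [WG.mul_d]
    rw [Finset.sum_add_distrib, hshift fun a b => (g ^ n).d a b, ih]
    push_cast
    ring

theorem sum_mul_d (g h : WG F) (O : Finset (F × F)) (hh : ∀ p ∈ O, (h.p p.1, h.p p.2) ∈ O) :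
    ∑ p ∈ O, (g * h).d p.1 p.2 = ∑ p ∈ O, g.d p.1 p.2 + ∑ p ∈ O, h.d p.1 p.2 := by
  classical
  have hinj : Set.InjOn (fun p : F × F => (h.p p.1, h.p p.2)) O := by
    intro p _ q _ he
    have h1 := congrArg Prod.fst he
    have h2 := congrArg Prod.snd he
    exact Prod.ext (h.p.injective h1) (h.p.injective h2)
  have himg : O.image (fun p : F × F => (h.p p.1, h.p p.2)) = O := by
    refine Finset.eq_of_subset_of_card_le (Finset.image_subset_iff.2 hh) ?_
    rw [Finset.card_image_of_injOn hinj]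
  have hshift : ∑ p ∈ O, g.d (h.p p.1) (h.p p.2) = ∑ p ∈ O, g.d p.1 p.2 := by
    conv_rhs => rw [← himg]
    rw [Finset.sum_image hinj]
  simp only [WG.mul_d]
  rw [Finset.sum_add_distrib, hshift]
  ring

theorem wd_sum (g h : WG F) (O : Finset (F × F)) (hg : ∀ p ∈ O, (g.p p.1, g.p p.2) ∈ O)
    (hh : ∀ p ∈ O, (h.p p.1, h.p p.2) ∈ O) :
    ∑ p ∈ O, wd (g * h) p.1 p.2 = ∑ p ∈ O, wd g p.1 p.2 + ∑ p ∈ O, wd h p.1 p.2 := by
  have hgh : ∀ p ∈ O, ((g * h).p p.1, (g * h).p p.2) ∈ O := fun p hp => hg _ (hh p hp)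
  unfold wd
  rw [← Finset.sum_div, ← Finset.sum_div, ← Finset.sum_div, pow_d_sum _ O hgh, pow_d_sum _ O hg, pow_d_sum _ O hh,
    sum_mul_d g h O hh]
  ring

/-- the windings of swapped pairs -/
theorem wd_sum' (g h : WG F) (O : Finset (F × F)) (hg : ∀ p ∈ O, (g.p p.1, g.p p.2) ∈ O)
    (hh : ∀ p ∈ O, (h.p p.1, h.p p.2) ∈ O) :
    ∑ p ∈ O, wd (g * h) p.2 p.1 = ∑ p ∈ O, wd g p.2 p.1 + ∑ p ∈ O, wd h p.2 p.1 := by
  classical
  have hinj : Set.InjOn (Prod.swap : F × F → F × F) O := fun p _ q _ h => Prod.swap_injective h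
  have key : ∀ f : F → F → ℂ, ∑ p ∈ O.image Prod.swap, f p.1 p.2 = ∑ p ∈ O, f p.2 p.1 := by
    intro f
    rw [Finset.sum_image hinj]
    rfl
  have hmem : ∀ l : WG F, (∀ p ∈ O, (l.p p.1, l.p p.2) ∈ O) → ∀ p ∈ O.image Prod.swap,
      (l.p p.1, l.p p.2) ∈ O.image Prod.swap := by
    intro l hl p hp
    obtain ⟨q, hq, rfl⟩ := Finset.mem_image.1 hp
    exact Finset.mem_image.2 ⟨(l.p q.1, l.p q.2), hl q hq, rfl⟩
  have h1 := wd_sum g h (O.image Prod.swap) (hmem g hg) (hmem h hh)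
  rw [key fun a b => wd (g * h) a b, key fun a b => wd g a b, key fun a b => wd h a b] at h1
  exact h1

theorem swap_braid (i : ℕ) : Equiv.swap i (i + 1) * Equiv.swap (i + 1) (i + 1 + 1) * Equiv.swap i (i + 1) =
    Equiv.swap (i + 1) (i + 1 + 1) * Equiv.swap i (i + 1) * Equiv.swap (i + 1) (i + 1 + 1) := by
  ext x
  simp only [Equiv.Perm.mul_apply, Equiv.swap_apply_def]
  split_ifs <;> omega

/-- The abstract winding system. -/
noncomputable def wsys [Finite F] (k : ℕ) (wg : ℕ → WG F) (hR : Equivalence R)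
    (hrel : ∀ i, i + 1 < k → ∀ x y, R ((wg i).p x) ((wg i).p y) ↔ R x y)
    (hss : ∀ i, i + 1 < k → ∀ x, R ((wg i).p x) ((wg 0).p x))
    (hcomm : ∀ i j, i + 2 ≤ j → j + 1 < k → wg i * wg j = wg j * wg i)
    (hbraid : ∀ i, i + 2 < k → wg i * wg (i + 1) * wg i = wg (i + 1) * wg i * wg (i + 1)) (κ : ℝ) :
    LN6.WSys k (GR R) F where
  s := fun i => if h : i + 1 < k then
    ⟨(wg i, Multiplicative.ofAdd 1, Equiv.swap i (i + 1)), hrel i h⟩ else 1
  braid := by
    intro i hi
    rw [dif_pos (by omega : i + 1 < k), dif_pos (by omega : i + 1 + 1 < k)]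
    refine Subtype.ext (Prod.ext (hbraid i hi) (Prod.ext rfl ?_))
    exact swap_braid i
  comm := by
    intro i j hij hj
    rw [dif_pos (by omega : i + 1 < k), dif_pos hj]
    refine Subtype.ext (Prod.ext (hcomm i j hij hj) (Prod.ext rfl ?_))
    show Equiv.swap i (i + 1) * Equiv.swap j (j + 1) = Equiv.swap j (j + 1) * Equiv.swap i (i + 1)
    refine (Equiv.Perm.Disjoint.commute ?_).eq
    intro x
    by_cases h : x = i ∨ x = i + 1
    · right
      exact Equiv.swap_apply_of_ne_of_ne (by omega) (by omega)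
    · left
      exact Equiv.swap_apply_of_ne_of_ne (by omega) (by omega)
  lab := (MonoidHom.snd _ _).comp ((MonoidHom.snd _ _).comp (GR R).subtype)
  lab_s := by
    intro i hi
    show (((if h : i + 1 < k then _ else 1 : GR R)).1.2.2 : Equiv.Perm ℕ) = _
    rw [dif_pos hi]
  R := R
  R_refl := hR.refl
  R_symm := hR.symm
  R_trans := hR.trans
  R_smul := fun g x y h => (g.2 x y).2 h
  R_s := by
    intro i x hi
    rw [dif_pos hi, dif_pos (by omega : 0 + 1 < k)]
    exact hss i hi x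
  v := vv κ
  v_symm := by
    intro g x y
    unfold vv
    rw [add_comm (wd g.1.1 x y).re]
  v_conj := by
    intro g h x y _ _
    unfold vv
    have e1 : ((h * g * h⁻¹ : GR R)).1.1 = h.1.1 * g.1.1 * h.1.1⁻¹ := rfl
    have e2 : (h • x : F) = h.1.1.p x := rfl
    have e3 : (h • y : F) = h.1.1.p y := rfl
    have e4 : ((h * g * h⁻¹ : GR R)).1.2.1 = g.1.2.1 := by
      show h.1.2.1 * g.1.2.1 * h.1.2.1⁻¹ = g.1.2.1
      rw [mul_comm h.1.2.1, mul_assoc, mul_inv_cancel, mul_one]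
    rw [e1, e2, e3, e4, wd_conj, wd_conj]
  v_mul := by
    intro g h x y _ _ hgh
    have h1 : g.1.1 * h.1.1 = h.1.1 * g.1.1 := congrArg (fun z : GR R => z.1.1) hgh
    have e1 : ((g * h : GR R)).1.1 = g.1.1 * h.1.1 := rfl
    have e2 : (Multiplicative.toAdd ((g * h : GR R)).1.2.1 : ℤ) =
      Multiplicative.toAdd g.1.2.1 + Multiplicative.toAdd h.1.2.1 := rfl
    unfold vv
    rw [e1, e2, wd_mul_of_comm _ _ h1, wd_mul_of_comm _ _ h1, Complex.add_re, Complex.add_re]
    push_cast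
    ring
  v_sum := by
    intro O g h _ hg hh
    have e1 : ((g * h : GR R)).1.1 = g.1.1 * h.1.1 := rfl
    have e2 : (Multiplicative.toAdd ((g * h : GR R)).1.2.1 : ℤ) =
      Multiplicative.toAdd g.1.2.1 + Multiplicative.toAdd h.1.2.1 := rfl
    have hg' : ∀ p ∈ O, (g.1.1.p p.1, g.1.1.p p.2) ∈ O := fun p hp => hg p hp
    have hh' : ∀ p ∈ O, (h.1.1.p p.1, h.1.1.p p.2) ∈ O := fun p hp => hh p hp
    have s1 := congrArg Complex.re (wd_sum g.1.1 h.1.1 O hg' hh')
    have s2 := congrArg Complex.re (wd_sum' g.1.1 h.1.1 O hg' hh')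
    simp only [Complex.add_re, Complex.re_sum] at s1 s2
    unfold vv
    rw [e1, e2]
    simp only [Finset.sum_sub_distrib, ← Finset.sum_div, Finset.sum_add_distrib, Finset.sum_const, nsmul_eq_mul]
    rw [s1, s2]
    push_cast
    ring

end Pool.Agent.Helper93.L6
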