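import Pool.Agent.Helper96.LN3.Cn

/-!
# LN6-P4 (MP_730da0_ag): the nested family of configurations

`cm k m u v`: the first `m` points are at `c + e^v (p_l - c)`, `c = (m-1)/2`, where `p_0, p_1 = 1/2 ∓ e^u/2`, `p_l = l` for `2 ≤ l < m`; the other points are at `l`.
Paper proofs: `‖p_l - c‖ ≤ c` for `l < m` (`l = 0, 1`: `(c - 1/2) + 1/2`; `2 ≤ l ≤ m-1`), so the real parts of the first `m` points are `≤ c + c = m - 1 < m` (`‖e^v‖ < 1`); the `p_l` are different (`‖e^u‖ < 1`, `e^u ≠ 0`).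
For `v` real and `Re e^u > 0` the real parts are increasing.  Compare with Helper96/LN3/Cn.lean (same lemmas for the family `cn`; `cn_ord`, `cn_crossu`).
-/

namespace Pool.Agent.Helper93.L6

open Pool.Agent.Helper2.LN Pool.Agent.Helper96.LN3

variable {k m : ℕ}

/-- the cluster before scaling -/
noncomputable def pm (u : ℂ) (l : ℕ) : ℂ :=
  if l = 0 then 1 / 2 - Complex.exp u / 2 else if l = 1 then 1 / 2 + Complex.exp u / 2 else (l : ℂ)

/-- the nested family -/
noncomputable def cm (k m : ℕ) (u v : ℂ) : Fin k → ℂ := fun l =>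
  if (l : ℕ) < m then ((m : ℂ) - 1) / 2 + Complex.exp v * (pm u l - ((m : ℂ) - 1) / 2) else ((l : ℕ) : ℂ)

private theorem pm0 (u : ℂ) : pm u 0 = 1 / 2 - Complex.exp u / 2 := by
  unfold pm
  rw [if_pos rfl]

private theorem pm1 (u : ℂ) : pm u 1 = 1 / 2 + Complex.exp u / 2 := by
  unfold pm
  rw [if_neg one_ne_zero, if_pos rfl]

private theorem pm2 (u : ℂ) (l : ℕ) (hl : 2 ≤ l) : pm u l = (l : ℂ) := by
  unfold pm
  rw [if_neg (by omega), if_neg (by omega)]

private theorem exp_lt {u : ℂ} (hu : u ∈ Hl) : ‖Complex.exp u‖ < 1 := by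
  rw [Complex.norm_exp, Real.exp_lt_one_iff]
  exact hu

private theorem exp_re {u : ℂ} (hu : u ∈ Hl) : |(Complex.exp u).re| < 1 :=
  (Complex.abs_re_le_norm _).trans_lt (exp_lt hu)

private theorem cm_lt (u v : ℂ) (l : Fin k) (hl : (l : ℕ) < m) :
    cm k m u v l = ((m : ℂ) - 1) / 2 + Complex.exp v * (pm u l - ((m : ℂ) - 1) / 2) := by
  unfold cm
  rw [if_pos hl]

private theorem cm_ge (u v : ℂ) (l : Fin k) (hl : ¬ (l : ℕ) < m) : cm k m u v l = ((l : ℕ) : ℂ) := by
  unfold cm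
  rw [if_neg hl]

private theorem re_c : (((m : ℂ) - 1) / 2).re = ((m : ℝ) - 1) / 2 := by
  simp

private theorem im_c : (((m : ℂ) - 1) / 2).im = 0 := by
  simp

private theorem cm_p0 (hk : 2 ≤ k) (hm : 2 ≤ m) (u v : ℂ) : cm k m u v ⟨0, by omega⟩ =
    ((m : ℂ) - 1) / 2 + Complex.exp v * (1 / 2 - Complex.exp u / 2 - ((m : ℂ) - 1) / 2) := by
  have h : ((⟨0, by omega⟩ : Fin k) : ℕ) < m := by
    change 0 < m
    omega
  rw [cm_lt u v _ h]
  change _ + _ * (pm u 0 - _) = _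
  rw [pm0]

private theorem cm_p1 (hk : 2 ≤ k) (hm : 2 ≤ m) (u v : ℂ) : cm k m u v ⟨1, by omega⟩ =
    ((m : ℂ) - 1) / 2 + Complex.exp v * (1 / 2 + Complex.exp u / 2 - ((m : ℂ) - 1) / 2) := by
  have h : ((⟨1, by omega⟩ : Fin k) : ℕ) < m := by
    change 1 < m
    omega
  rw [cm_lt u v _ h]
  change _ + _ * (pm u 1 - _) = _
  rw [pm1]

theorem cm_diff (k m : ℕ) : Differentiable ℂ fun z : ℂ × ℂ => cm k m z.1 z.2 := by
  rw [differentiable_pi]
  intro l
  unfold cm pm
  split_ifs <;> fun_prop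

theorem pm_norm (hm : 2 ≤ m) (u : ℂ) (hu : u ∈ Hl) (l : ℕ) (hl : l < m) :
    ‖pm u l - ((m : ℂ) - 1) / 2‖ ≤ ((m : ℝ) - 1) / 2 := by
  have h1 := exp_lt hu
  have hm' : (2 : ℝ) ≤ (m : ℝ) := by exact_mod_cast hm
  have h2 : ‖(1 / 2 : ℂ) - ((m : ℂ) - 1) / 2‖ = ((m : ℝ) - 2) / 2 := by
    have h3 : (1 / 2 : ℂ) - ((m : ℂ) - 1) / 2 = (((2 - (m : ℝ)) / 2 : ℝ) : ℂ) := by
      push_cast
      ring
    rw [h3, Complex.norm_real, Real.norm_eq_abs, abs_of_nonpos (by linarith)]
    ring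
  have h4 : ‖Complex.exp u / 2‖ = ‖Complex.exp u‖ / 2 := by
    rw [norm_div]
    norm_num
  rcases Nat.lt_or_ge l 2 with h | h
  · interval_cases l
    · rw [pm0, sub_right_comm]
      calc ‖(1 / 2 : ℂ) - ((m : ℂ) - 1) / 2 - Complex.exp u / 2‖
          ≤ ‖(1 / 2 : ℂ) - ((m : ℂ) - 1) / 2‖ + ‖Complex.exp u / 2‖ := norm_sub_le _ _
        _ ≤ ((m : ℝ) - 1) / 2 := by
          rw [h2, h4]
          linarith
    · rw [pm1, add_sub_right_comm]
      calc ‖(1 / 2 : ℂ) - ((m : ℂ) - 1) / 2 + Complex.exp u / 2‖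
          ≤ ‖(1 / 2 : ℂ) - ((m : ℂ) - 1) / 2‖ + ‖Complex.exp u / 2‖ := norm_add_le _ _
        _ ≤ ((m : ℝ) - 1) / 2 := by
          rw [h2, h4]
          linarith
  · rw [pm2 u l h]
    have h3 : (l : ℂ) - ((m : ℂ) - 1) / 2 = (((l : ℝ) - ((m : ℝ) - 1) / 2 : ℝ) : ℂ) := by
      push_cast
      ring
    have h5 : (l : ℝ) + 1 ≤ m := by exact_mod_cast hl
    have h6 : (0 : ℝ) ≤ l := Nat.cast_nonneg l
    rw [h3, Complex.norm_real, Real.norm_eq_abs, abs_le]
    constructor <;> linarith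

/-- the real parts of the first `m` points -/
theorem cm_re (hm : 2 ≤ m) (u v : ℂ) (hu : u ∈ Hl) (hv : v ∈ Hl) (l : Fin k) (hl : (l : ℕ) < m) :
    (cm k m u v l).re ≤ (m : ℝ) - 1 := by
  have h1 := pm_norm hm u hu l hl
  have h2 := exp_lt hv
  rw [cm_lt u v l hl, Complex.add_re, re_c]
  have h3 : (Complex.exp v * (pm u l - ((m : ℂ) - 1) / 2)).re ≤ ((m : ℝ) - 1) / 2 := by
    calc (Complex.exp v * (pm u l - ((m : ℂ) - 1) / 2)).re
        ≤ ‖Complex.exp v * (pm u l - ((m : ℂ) - 1) / 2)‖ := Complex.re_le_norm _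
      _ = ‖Complex.exp v‖ * ‖pm u l - ((m : ℂ) - 1) / 2‖ := norm_mul _ _
      _ ≤ 1 * ‖pm u l - ((m : ℂ) - 1) / 2‖ := mul_le_mul_of_nonneg_right h2.le (norm_nonneg _)
      _ ≤ ((m : ℝ) - 1) / 2 := by rw [one_mul]; exact h1
  linarith

private theorem pm_ne {u : ℂ} (hu : u ∈ Hl) {x y : ℕ} (h : x < y) : pm u x ≠ pm u y := by
  have h1 := abs_lt.1 (exp_re hu)
  intro he
  rcases Nat.lt_or_ge y 2 with hy | hy
  · have hx0 : x = 0 := by omega
    have hy1 : y = 1 := by omega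
    subst hx0 hy1
    rw [pm0, pm1] at he
    exact Complex.exp_ne_zero u (by linear_combination -he)
  · rcases Nat.lt_or_ge x 2 with hx | hx
    · have h2 : (2 : ℝ) ≤ y := by exact_mod_cast hy
      have h3 := congrArg Complex.re he
      rw [pm2 u y hy, Complex.natCast_re] at h3
      interval_cases x
      · rw [pm0] at h3
        simp only [Complex.sub_re, Complex.div_ofNat_re, Complex.one_re] at h3
        linarith [h1.1, h1.2]
      · rw [pm1] at h3
        simp only [Complex.add_re, Complex.div_ofNat_re, Complex.one_re] at h3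
        linarith [h1.1, h1.2]
    · rw [pm2 u x hx, pm2 u y hy] at he
      have : x = y := by exact_mod_cast he
      omega

theorem cm_conf (hm : 2 ≤ m) (hk : m ≤ k) (u v : ℂ) (hu : u ∈ Hl) (hv : v ∈ Hl) : cm k m u v ∈ Conf k := by
  have key : ∀ x y : Fin k, (x : ℕ) < y → cm k m u v x ≠ cm k m u v y := by
    intro x y hxy he
    by_cases hy : (y : ℕ) < m
    · rw [cm_lt u v x (by omega), cm_lt u v y hy] at he
      have h1 := mul_left_cancel₀ (Complex.exp_ne_zero v) (add_left_cancel he)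
      exact pm_ne hu hxy (sub_left_injective h1)
    · by_cases hx : (x : ℕ) < m
      · have h1 := cm_re hm u v hu hv x hx
        rw [he, cm_ge u v y hy, Complex.natCast_re] at h1
        have h2 : (m : ℝ) ≤ ((y : ℕ) : ℝ) := by exact_mod_cast (not_lt.1 hy)
        linarith
      · rw [cm_ge u v x hx, cm_ge u v y hy] at he
        have : (x : ℕ) = y := by exact_mod_cast he
        omega
  intro x y he
  rcases lt_trichotomy (x : ℕ) y with h | h | h
  · exact absurd he (key x y h)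
  · exact Fin.ext h
  · exact absurd he.symm (key y x h)

private theorem pm_re_lt {u : ℂ} (hu : u ∈ Hl) (hu2 : 0 < (Complex.exp u).re) {x y : ℕ} (h : x < y) :
    (pm u x).re < (pm u y).re := by
  have h1 := abs_lt.1 (exp_re hu)
  rcases Nat.lt_or_ge y 2 with hy | hy
  · have hx0 : x = 0 := by omega
    have hy1 : y = 1 := by omega
    subst hx0 hy1
    rw [pm0, pm1]
    simp only [Complex.sub_re, Complex.add_re, Complex.div_ofNat_re, Complex.one_re]
    linarith
  · have h2 : (2 : ℝ) ≤ y := by exact_mod_cast hy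
    rcases Nat.lt_or_ge x 2 with hx | hx
    · rw [pm2 u y hy, Complex.natCast_re]
      interval_cases x
      · rw [pm0]
        simp only [Complex.sub_re, Complex.div_ofNat_re, Complex.one_re]
        linarith [h1.1, h1.2]
      · rw [pm1]
        simp only [Complex.add_re, Complex.div_ofNat_re, Complex.one_re]
        linarith [h1.1, h1.2]
    · rw [pm2 u x hx, pm2 u y hy, Complex.natCast_re, Complex.natCast_re]
      exact_mod_cast h

private theorem cm_lt_re (u : ℂ) (v : ℝ) (l : Fin k) (hl : (l : ℕ) < m) :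
    (cm k m u v l).re = ((m : ℝ) - 1) / 2 + Real.exp v * ((pm u l).re - ((m : ℝ) - 1) / 2) := by
  rw [cm_lt u v l hl, Complex.add_re, re_c, ← Complex.ofReal_exp, Complex.re_ofReal_mul, Complex.sub_re, re_c]

theorem cm_ord (hm : 2 ≤ m) (u : ℂ) (hu : u ∈ Hl) (hu2 : 0 < (Complex.exp u).re) (v : ℝ) (hv : v < 0) :
    cm k m u v ∈ Ord k := by
  have hv' : (v : ℂ) ∈ Hl := by
    change ((v : ℂ)).re < 0
    rw [Complex.ofReal_re]
    exact hv
  intro x y hxy
  have hxy' : (x : ℕ) < y := hxy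
  by_cases hy : (y : ℕ) < m
  · rw [cm_lt_re u v x (by omega), cm_lt_re u v y hy]
    have h1 := pm_re_lt hu hu2 hxy'
    have h2 := mul_lt_mul_of_pos_left (sub_lt_sub_right h1 (((m : ℝ) - 1) / 2)) (Real.exp_pos v)
    linarith
  · have h2 : (m : ℝ) ≤ ((y : ℕ) : ℝ) := by exact_mod_cast (not_lt.1 hy)
    by_cases hx : (x : ℕ) < m
    · have h1 := cm_re hm u v hu hv' x hx
      rw [cm_ge u v y hy, Complex.natCast_re]
      linarith
    · rw [cm_ge u v x hx, cm_ge u v y hy, Complex.natCast_re, Complex.natCast_re]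
      exact_mod_cast hxy'

theorem cm_tru (hk : 2 ≤ k) (hm : 2 ≤ m) (u v : ℂ) :
    cm k m (u + Real.pi * Complex.I) v = cm k m u v ∘ Equiv.swap ⟨0, by omega⟩ ⟨1, by omega⟩ := by
  have he : Complex.exp (u + Real.pi * Complex.I) = - Complex.exp u := by
    rw [Complex.exp_add, Complex.exp_pi_mul_I]
    ring
  funext l
  rw [Function.comp_apply]
  by_cases h0 : (l : ℕ) = 0
  · have hl : l = ⟨0, by omega⟩ := Fin.ext h0
    rw [hl, Equiv.swap_apply_left, cm_p0 hk hm, cm_p1 hk hm, he]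
    ring
  · by_cases h1 : (l : ℕ) = 1
    · have hl : l = ⟨1, by omega⟩ := Fin.ext h1
      rw [hl, Equiv.swap_apply_right, cm_p0 hk hm, cm_p1 hk hm, he]
      ring
    · rw [Equiv.swap_apply_of_ne_of_ne (fun h => h0 (by rw [h])) (fun h => h1 (by rw [h]))]
      by_cases hl : (l : ℕ) < m
      · rw [cm_lt _ _ _ hl, cm_lt _ _ _ hl, pm2 _ _ (by omega), pm2 _ _ (by omega)]
      · rw [cm_ge _ _ _ hl, cm_ge _ _ _ hl]

theorem cm_trv (u v : ℂ) : cm k m u (v + 2 * Real.pi * Complex.I) = cm k m u v := by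
  have he : Complex.exp (v + 2 * Real.pi * Complex.I) = Complex.exp v := by
    rw [Complex.exp_add, Complex.exp_two_pi_mul_I, mul_one]
  unfold cm
  rw [he]

private theorem mem_Hl (x y : ℝ) (hx : x < 0) : (x : ℂ) + y * Complex.I ∈ Hl := by
  change ((x : ℂ) + y * Complex.I).re < 0
  simpa using hx

private theorem swp_lt {k : ℕ} (hk : 2 ≤ k) (x y : Fin k) (h1 : ¬ (x = ⟨0, by omega⟩ ∧ y = ⟨1, by omega⟩))
    (h2 : ¬ (x = ⟨1, by omega⟩ ∧ y = ⟨0, by omega⟩)) :
    Equiv.swap (⟨0, by omega⟩ : Fin k) ⟨1, by omega⟩ x < Equiv.swap (⟨0, by omega⟩ : Fin k) ⟨1, by omega⟩ y ↔ x < y := by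
  have key : ∀ z : Fin k, ((Equiv.swap (⟨0, by omega⟩ : Fin k) ⟨1, by omega⟩ z : Fin k) : ℕ) =
      if (z : ℕ) = 0 then 1 else if (z : ℕ) = 1 then 0 else (z : ℕ) := by
    intro z
    by_cases h0 : (z : ℕ) = 0
    · have hz : z = ⟨0, by omega⟩ := Fin.ext h0
      rw [if_pos h0, hz, Equiv.swap_apply_left]
    · by_cases h1 : (z : ℕ) = 1
      · have hz : z = ⟨1, by omega⟩ := Fin.ext h1
        rw [if_neg h0, if_pos h1, hz, Equiv.swap_apply_right]
      · rw [if_neg h0, if_neg h1,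
          Equiv.swap_apply_of_ne_of_ne (fun h => h0 (by rw [h])) (fun h => h1 (by rw [h]))]
  have e1 : ¬ ((x : ℕ) = 0 ∧ (y : ℕ) = 1) := fun h => h1 ⟨Fin.ext h.1, Fin.ext h.2⟩
  have e2 : ¬ ((x : ℕ) = 1 ∧ (y : ℕ) = 0) := fun h => h2 ⟨Fin.ext h.1, Fin.ext h.2⟩
  rw [Fin.lt_def, Fin.lt_def, key, key]
  split_ifs <;> omega

theorem cm_cross (hk : 2 ≤ k) (hm : 2 ≤ m) (x : ℝ) (hx : x < 0) (y y' : ℝ) (hy : 0 < y) (hy' : y < Real.pi / 2)
    (hz : Real.pi / 2 < y') (hz' : y' < Real.pi) (v : ℝ) (hv : v < 0) :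
    Cross (cm k m (x + y * Complex.I) v) (cm k m (x + y' * Complex.I) v) ⟨0, by omega⟩ ⟨1, by omega⟩ ∧
      pos (cm k m (x + y * Complex.I) v) ⟨0, by omega⟩ = 0 := by
  have hpi := Real.pi_pos
  have im1 : ∀ t : ℝ, ((x : ℂ) + t * Complex.I).im = t := fun t => by simp
  have a1 : 0 < (Complex.exp ((x : ℂ) + y * Complex.I)).re := by
    rw [Complex.exp_re, im1]
    exact mul_pos (Real.exp_pos _) (Real.cos_pos_of_mem_Ioo ⟨by linarith, hy'⟩)
  have a2 : (Complex.exp ((x : ℂ) + y' * Complex.I)).re < 0 := by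
    rw [Complex.exp_re, im1]
    exact mul_neg_of_pos_of_neg (Real.exp_pos _) (Real.cos_neg_of_pi_div_two_lt_of_lt hz (by linarith))
  have b1 : 0 < (Complex.exp ((x : ℂ) + y * Complex.I)).im := by
    rw [Complex.exp_im, im1]
    exact mul_pos (Real.exp_pos _) (Real.sin_pos_of_pos_of_lt_pi hy (by linarith))
  have b2 : 0 < (Complex.exp ((x : ℂ) + y' * Complex.I)).im := by
    rw [Complex.exp_im, im1]
    exact mul_pos (Real.exp_pos _) (Real.sin_pos_of_pos_of_lt_pi (by linarith) hz')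
  have oa : cm k m (x + y * Complex.I) v ∈ Ord k := cm_ord hm _ (mem_Hl x y hx) a1 v hv
  have oc : cm k m (x + y' * Complex.I) v ∘ Equiv.swap ⟨0, by omega⟩ ⟨1, by omega⟩ ∈ Ord k := by
    rw [← cm_tru hk hm]
    refine cm_ord hm _ ?_ ?_ v hv
    · change ((x : ℂ) + y' * Complex.I + Real.pi * Complex.I).re < 0
      simpa using hx
    · rw [Complex.exp_add, Complex.exp_pi_mul_I]
      simp only [mul_neg, mul_one, Complex.neg_re]
      linarith
  have oc' : ∀ p q : Fin k, Equiv.swap (⟨0, by omega⟩ : Fin k) ⟨1, by omega⟩ p <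
      Equiv.swap (⟨0, by omega⟩ : Fin k) ⟨1, by omega⟩ q →
      (cm k m (x + y' * Complex.I) v p).re < (cm k m (x + y' * Complex.I) v q).re := by
    intro p q h
    have := oc _ _ h
    simpa only [Function.comp_apply, Equiv.swap_apply_self] using this
  have oa' : ∀ p q : Fin k, (cm k m (x + y * Complex.I) v p).re < (cm k m (x + y * Complex.I) v q).re ↔ p < q := by
    intro p q
    constructor
    · intro h
      by_contra h1
      rcases lt_or_eq_of_le (not_lt.1 h1) with h2 | h2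
      · exact absurd (oa q p h2) (not_lt.2 h.le)
      · rw [h2] at h
        exact absurd h (lt_irrefl _)
    · exact oa p q
  have oc2 : ∀ p q : Fin k, (cm k m (x + y' * Complex.I) v p).re < (cm k m (x + y' * Complex.I) v q).re ↔
      Equiv.swap (⟨0, by omega⟩ : Fin k) ⟨1, by omega⟩ p < Equiv.swap (⟨0, by omega⟩ : Fin k) ⟨1, by omega⟩ q := by
    intro p q
    constructor
    · intro h
      by_contra h1
      rcases lt_or_eq_of_le (not_lt.1 h1) with h2 | h2
      · exact absurd (oc' q p h2) (not_lt.2 h.le)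
      · rw [(Equiv.swap (⟨0, by omega⟩ : Fin k) ⟨1, by omega⟩).injective h2] at h
        exact absurd h (lt_irrefl _)
    · exact oc' p q
  have im0 : ∀ t : ℝ, (cm k m (x + t * Complex.I) v ⟨0, by omega⟩).im =
      - (Real.exp v * (Complex.exp ((x : ℂ) + t * Complex.I)).im / 2) := by
    intro t
    rw [cm_p0 hk hm, ← Complex.ofReal_exp, Complex.add_im, im_c, Complex.im_ofReal_mul, Complex.sub_im, im_c]
    simp only [Complex.sub_im, Complex.div_ofNat_im, Complex.one_im]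
    ring
  have im2 : ∀ t : ℝ, (cm k m (x + t * Complex.I) v ⟨1, by omega⟩).im =
      Real.exp v * (Complex.exp ((x : ℂ) + t * Complex.I)).im / 2 := by
    intro t
    rw [cm_p1 hk hm, ← Complex.ofReal_exp, Complex.add_im, im_c, Complex.im_ofReal_mul, Complex.sub_im, im_c]
    simp only [Complex.add_im, Complex.div_ofNat_im, Complex.one_im]
    ring
  refine ⟨⟨Ord_subset_Gen k oa, ?_, ?_, ?_, ?_, ?_, ?_⟩, ?_⟩
  · intro p q h
    have h' : (cm k m (x + y' * Complex.I) v p).re = (cm k m (x + y' * Complex.I) v q).re := h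
    by_contra hne
    have hne' : Equiv.swap (⟨0, by omega⟩ : Fin k) ⟨1, by omega⟩ p ≠
        Equiv.swap (⟨0, by omega⟩ : Fin k) ⟨1, by omega⟩ q := fun h2 =>
      hne ((Equiv.swap (⟨0, by omega⟩ : Fin k) ⟨1, by omega⟩).injective h2)
    rcases lt_or_gt_of_ne hne' with h1 | h1
    · exact absurd h' (oc' p q h1).ne
    · exact absurd h' (oc' q p h1).ne'
  · exact oa _ _ (by rw [Fin.lt_def]; exact Nat.zero_lt_one)
  · rw [oc2, Equiv.swap_apply_left, Equiv.swap_apply_right, Fin.lt_def]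
    exact Nat.zero_lt_one
  · rw [im0, im2]
    have := mul_pos (Real.exp_pos v) b1
    linarith
  · rw [im0, im2]
    have := mul_pos (Real.exp_pos v) b2
    linarith
  · intro p q hp hq
    rw [oa', oc2, swp_lt hk p q hp hq]
  · unfold pos
    rw [Finset.card_eq_zero, Finset.filter_eq_empty_iff]
    intro j _ h
    rw [oa', Fin.lt_def] at h
    exact absurd h (Nat.not_lt_zero _)

end Pool.Agent.Helper93.L6
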