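import Pool.Agent.Helper93.L6.Cm
import Pool.Agent.Helper96.LN3.FamX

/-!
# LN6-P5 (MP_730da0_ag): the sections over the nested family

Paper proofs: the same as in Helper96/LN3/FamX.lean (`exists_fam`, `fam_inj`, `fam_map`, `fam_tru`), with `cm`, `cm_conf`, `cm_ord`, `cm_tru`, `cm_cross` in place of `cn`, ...  (copy the private lemmas).
-/

namespace Pool.Agent.Helper93.L6

open Pool.Agent.Helper2.LN Pool.Agent.Helper96.LN3

variable {k m : ℕ} {W : Type} [TopologicalSpace W]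

/-- The sections of the system `S` over the family `cm k m`, `u`, `v` in the left half plane. -/
structure IsFamM (S : Sys k W) (m : ℕ) (X : S.F (base k) → ℂ → ℂ → W) : Prop where
  cont : ∀ φ, ContinuousOn (fun z : ℂ × ℂ => X φ z.1 z.2) (Hl ×ˢ Hl)
  mem : ∀ φ, ∀ u ∈ Hl, ∀ v ∈ Hl, X φ u v ∈ S.F (cm k m u v)
  one : ∀ φ, X φ (-1) (-1) = S.val φ (cm k m (-1) (-1))

private theorem convex_hl : Convex ℝ Hl := by
  have h : Hl = Complex.reLm ⁻¹' Set.Iio 0 := by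
    ext z
    simp [Hl]
  rw [h]
  exact (convex_Iio 0).linear_preimage _

private theorem isOpen_hl : IsOpen Hl := isOpen_lt Complex.continuous_re continuous_const

private theorem neg_one_hl : (-1 : ℂ) ∈ Hl := by simp [Hl]

private theorem isOpen_hh : IsOpen (Hl ×ˢ Hl) := isOpen_hl.prod isOpen_hl

private theorem convex_hh : Convex ℝ (Hl ×ˢ Hl) := convex_hl.prod convex_hl

private theorem sc_hh : SimplyConnectedSpace (Hl ×ˢ Hl : Set (ℂ × ℂ)) := by
  have h : ContractibleSpace (Hl ×ˢ Hl : Set (ℂ × ℂ)) :=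
    convex_hh.contractibleSpace ⟨(-1, -1), neg_one_hl, neg_one_hl⟩
  infer_instance

private theorem lpc_hh : LocallyPathConnectedSpace (Hl ×ˢ Hl : Set (ℂ × ℂ)) :=
  isOpen_hh.locallyPathConnectedSpace

private noncomputable def cmC (k m : ℕ) : C((Hl ×ˢ Hl : Set (ℂ × ℂ)), Fin k → ℂ) :=
  ⟨fun z => cm k m z.1.1 z.1.2, (cm_diff k m).continuous.comp continuous_subtype_val⟩

private theorem cmC_conf (hm : 2 ≤ m) (hk : m ≤ k) (z : (Hl ×ˢ Hl : Set (ℂ × ℂ))) :
    cmC k m z ∈ Conf k := cm_conf hm hk z.1.1 z.1.2 z.2.1 z.2.2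

private theorem ft_exp_re (y : ℝ) (h : |y| < Real.pi / 2) :
    0 < (Complex.exp (-1 + y * Complex.I)).re := by
  rw [Complex.exp_re]
  have h1 := abs_lt.1 h
  have : (-1 + (y : ℂ) * Complex.I).im = y := by simp
  rw [this]
  exact mul_pos (Real.exp_pos _) (Real.cos_pos_of_mem_Ioo ⟨by linarith, h1.2⟩)

private theorem ft_exp_one : 0 < (Complex.exp (-1)).re := by
  have := ft_exp_re 0 (by rw [abs_zero]; positivity)
  simpa using this

private theorem cm_ord1 (hm : 2 ≤ m) (u : ℂ) (hu : u ∈ Hl) (hu2 : 0 < (Complex.exp u).re) :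
    cm k m u (-1) ∈ Ord k := by
  have := cm_ord (k := k) hm u hu hu2 (-1) (by norm_num)
  simpa using this

private theorem cm_gen (hm : 2 ≤ m) : cm k m (-1) (-1) ∈ Gen k :=
  Ord_subset_Gen k (cm_ord1 hm (-1) neg_one_hl ft_exp_one)

theorem exists_famM (S : Sys k W) (hm : 2 ≤ m) (hk : m ≤ k) :
    ∃ X : S.F (base k) → ℂ → ℂ → W, IsFamM S m X := by
  classical
  have h1 := sc_hh
  have h2 := lpc_hh
  have key : ∀ φ : S.F (base k), ∃ s : C((Hl ×ˢ Hl : Set (ℂ × ℂ)), W),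
      s ⟨(-1, -1), neg_one_hl, neg_one_hl⟩ = S.val φ (cm k m (-1) (-1)) ∧
      ∀ z, s z ∈ S.F (cmC k m z) := by
    intro φ
    exact S.lift _ (cmC k m) (cmC_conf hm hk) ⟨(-1, -1), neg_one_hl, neg_one_hl⟩
      (S.val φ (cm k m (-1) (-1))) (S.val_mem φ _ (cm_gen hm))
  choose s hs1 hs2 using key
  refine ⟨fun φ u v => if h : (u, v) ∈ Hl ×ˢ Hl then s φ ⟨(u, v), h⟩ else φ.1, ?_, ?_, ?_⟩
  · intro φ
    rw [continuousOn_iff_continuous_domRestrict]
    refine (s φ).continuous.congr fun z => ?_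
    have hz : (z.1.1, z.1.2) ∈ Hl ×ˢ Hl := z.2
    change s φ z = if h : (z.1.1, z.1.2) ∈ Hl ×ˢ Hl then s φ ⟨(z.1.1, z.1.2), h⟩ else φ.1
    rw [dif_pos hz]
  · intro φ u hu v hv
    have h : (u, v) ∈ Hl ×ˢ Hl := ⟨hu, hv⟩
    simp only [dif_pos h]
    exact hs2 φ ⟨(u, v), h⟩
  · intro φ
    have h : ((-1 : ℂ), (-1 : ℂ)) ∈ Hl ×ˢ Hl := ⟨neg_one_hl, neg_one_hl⟩
    simp only [dif_pos h]
    exact hs1 φ

/-- The section as a continuous map. -/
private noncomputable def famC (S : Sys k W) (m : ℕ) (X : S.F (base k) → ℂ → ℂ → W) (hX : IsFamM S m X)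
    (φ : S.F (base k)) : C((Hl ×ˢ Hl : Set (ℂ × ℂ)), W) :=
  ⟨fun z => X φ z.1.1 z.1.2, continuousOn_iff_continuous_domRestrict.1 (hX.cont φ)⟩

theorem famM_inj (S : Sys k W) (hm : 2 ≤ m) (hk : m ≤ k) (X : S.F (base k) → ℂ → ℂ → W)
    (hX : IsFamM S m X) (φ ψ : S.F (base k)) (u v : ℂ) (hu : u ∈ Hl) (hv : v ∈ Hl) (h : X φ u v = X ψ u v) :
    φ = ψ := by
  have h1 := sc_hh
  have h2 : PreconnectedSpace (Hl ×ˢ Hl : Set (ℂ × ℂ)) := inferInstance
  have h3 := S.uniq _ (cmC k m) (cmC_conf hm hk) (famC S m X hX φ) (famC S m X hX ψ)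
    (fun z => hX.mem φ z.1.1 z.2.1 z.1.2 z.2.2) (fun z => hX.mem ψ z.1.1 z.2.1 z.1.2 z.2.2)
    ⟨⟨(u, v), hu, hv⟩, h⟩
  have h4 : X φ (-1) (-1) = X ψ (-1) (-1) :=
    congrArg (fun s : C((Hl ×ˢ Hl : Set (ℂ × ℂ)), W) => s ⟨(-1, -1), neg_one_hl, neg_one_hl⟩) h3
  rw [hX.one, hX.one] at h4
  exact S.val_inj φ ψ _ (cm_gen hm) h4

theorem famM_map {W' : Type} [TopologicalSpace W'] (S : Sys k W) (S' : Sys k W') (hm : 2 ≤ m) (hk : m ≤ k)
    (X : S.F (base k) → ℂ → ℂ → W) (hX : IsFamM S m X)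
    (X' : S'.F (base k) → ℂ → ℂ → W') (hX' : IsFamM S' m X') (p : W → W') (hp : Continuous p)
    (hF : ∀ q ∈ Conf k, ∀ w ∈ S.F q, p w ∈ S'.F q) (φ : S.F (base k)) (u v : ℂ) (hu : u ∈ Hl) (hv : v ∈ Hl) :
    p (X φ u v) = X' ⟨p φ, hF _ (base_mem k) _ φ.2⟩ u v := by
  have h1 := sc_hh
  have h2 : PreconnectedSpace (Hl ×ˢ Hl : Set (ℂ × ℂ)) := inferInstance
  have h3 := S'.uniq _ (cmC k m) (cmC_conf hm hk)
    ((⟨p, hp⟩ : C(W, W')).comp (famC S m X hX φ))
    (famC S' m X' hX' ⟨p φ, hF _ (base_mem k) _ φ.2⟩)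
    (fun z => hF _ (cmC_conf hm hk z) _ (hX.mem φ z.1.1 z.2.1 z.1.2 z.2.2))
    (fun z => hX'.mem _ z.1.1 z.2.1 z.1.2 z.2.2)
    ⟨⟨(-1, -1), neg_one_hl, neg_one_hl⟩, by
      change p (X φ (-1) (-1)) = X' ⟨p φ, hF _ (base_mem k) _ φ.2⟩ (-1) (-1)
      rw [hX.one, hX'.one]
      exact val_map S S' p hp hF φ _ (cm_gen hm)⟩
  exact congrArg (fun s : C((Hl ×ˢ Hl : Set (ℂ × ℂ)), W') => s ⟨(u, v), hu, hv⟩) h3

/-- the convex set of one crossing -/
private def ft_V (l l1 : Fin k) : Set (Fin k → ℂ) :=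
  {x | (∀ u v, u < v → ¬ (u = l ∧ v = l1) → (x u).re < (x v).re) ∧ (x l).im < (x l1).im}

private theorem ft_comb {x y x' y' s t : ℝ} (h : x < y) (h' : x' < y') (hs : 0 ≤ s) (ht : 0 ≤ t)
    (hst : s + t = 1) : s * x + t * x' < s * y + t * y' := by
  rcases hs.eq_or_lt with h0 | h0
  · subst h0
    have : t = 1 := by linarith
    subst this
    linarith
  · have h1 : s * x < s * y := mul_lt_mul_of_pos_left h h0
    have h2 : t * x' ≤ t * y' := mul_le_mul_of_nonneg_left h'.le ht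
    linarith

private theorem ft_V_convex (l l1 : Fin k) : Convex ℝ (ft_V l l1) := by
  intro x hx y hy s t hs ht hst
  refine ⟨fun u v huv hne => ?_, ?_⟩
  · have h := ft_comb (hx.1 u v huv hne) (hy.1 u v huv hne) hs ht hst
    simpa using h
  · have h := ft_comb hx.2 hy.2 hs ht hst
    simpa using h

private theorem ft_V_conf (l l1 : Fin k) : ft_V l l1 ⊆ Conf k := by
  intro x hx
  have key : ∀ u v, u < v → x u ≠ x v := by
    intro u v huv he
    by_cases h : u = l ∧ v = l1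
    · have h1 := hx.2
      rw [← h.1, ← h.2, he] at h1
      exact lt_irrefl _ h1
    · have h1 := hx.1 u v huv h
      rw [he] at h1
      exact lt_irrefl _ h1
  intro u v he
  rcases lt_trichotomy u v with h1 | h1 | h1
  · exact absurd he (key u v h1)
  · exact h1
  · exact absurd he.symm (key v u h1)

/-- along a path in `Ord k` the name does not change -/
private theorem ft_along (S : Sys k W) (a b : ℝ) (hab : a ≤ b) (γ : ℝ → Fin k → ℂ) (hγ : Continuous γ)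
    (s : ℝ → W) (hs : Continuous s) (hF : ∀ t, s t ∈ S.F (γ t)) (ho : ∀ t ∈ Set.Icc a b, γ t ∈ Ord k)
    (φ : S.F (base k)) (h0 : s a = S.val φ (γ a)) : s b = S.val φ (γ b) := by
  have hp : PreconnectedSpace (Set.Icc a b) := Subtype.preconnectedSpace isPreconnected_Icc
  have h2 := S.T_along (Ord k) (convex_Ord k) ((Ord_subset_Gen k).trans (Gen_subset_Conf k))
    (Set.Icc a b) ⟨fun t => γ (t : ℝ), hγ.comp continuous_subtype_val⟩ (fun t => ho t t.2)
    ⟨fun t => s (t : ℝ), hs.comp continuous_subtype_val⟩ (fun t => hF t)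
    ⟨a, le_rfl, hab⟩ ⟨b, hab, le_rfl⟩
  have h3 : s b = S.T (γ a) (γ b) (s a) := h2
  have ha := ho a ⟨le_rfl, hab⟩
  have hb := ho b ⟨hab, le_rfl⟩
  have hiff : ∀ q ∈ Ord k, ∀ i j, (q i).re < (q j).re ↔ i < j := by
    intro q hq i j
    constructor
    · intro h
      rcases lt_trichotomy i j with h1 | h1 | h1
      · exact h1
      · rw [h1] at h
        exact absurd h (lt_irrefl _)
      · exact absurd (hq j i h1) (not_lt.2 h.le)
    · intro h
      exact hq i j h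
  rw [h3, h0]
  exact S.T_val _ _ (Ord_subset_Gen k ha) (Ord_subset_Gen k hb)
    (fun i j => by rw [hiff _ ha, hiff _ hb]) φ

/-- a path with one crossing -/
private theorem ft_one (S : Sys k W) (i : ℕ) (hi : i + 1 < k) (l l1 : Fin k) (γ : ℝ → Fin k → ℂ)
    (hγ : Continuous γ) (s : ℝ → W) (hs : Continuous s) (hF : ∀ t, s t ∈ S.F (γ t))
    (a b c d : ℝ) (hab : a ≤ b) (hbc : b ≤ c) (hcd : c ≤ d)
    (ho : ∀ t ∈ Set.Icc a b, γ t ∈ Ord k) (hV : ∀ t ∈ Set.Icc b c, γ t ∈ ft_V l l1)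
    (ρ : Equiv.Perm (Fin k)) (ho' : ∀ t ∈ Set.Icc c d, γ t ∘ ρ ∈ Ord k)
    (hc : Cross (γ b) (γ c) l l1) (hpos : pos (γ b) l = i)
    (φ : S.F (base k)) (h0 : s a = S.val φ (γ a)) (q : Fin k → ℂ) (hq : γ d ∘ ρ = q) :
    s d = S.val (S.s i φ) q := by
  have h1 : s b = S.val φ (γ b) := ft_along S a b hab γ hγ s hs hF ho φ h0
  have hp : PreconnectedSpace (Set.Icc b c) := Subtype.preconnectedSpace isPreconnected_Icc
  have h2 := S.T_along (ft_V l l1) (ft_V_convex l l1) (ft_V_conf l l1)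
    (Set.Icc b c) ⟨fun t => γ (t : ℝ), hγ.comp continuous_subtype_val⟩ (fun t => hV t t.2)
    ⟨fun t => s (t : ℝ), hs.comp continuous_subtype_val⟩ (fun t => hF t)
    ⟨b, le_rfl, hbc⟩ ⟨c, hbc, le_rfl⟩
  have h3 : s c = S.T (γ b) (γ c) (s b) := h2
  have h4 : s c = S.val (S.s i φ) (γ c) := by
    rw [h3, h1]
    exact S.crossProp_s i hi _ _ l l1 hc hpos φ
  have h5 : s c = S.val (S.s i φ) (γ c ∘ ρ) := by
    rw [h4]
    exact (S.val_perm _ _ hc.genc ρ).symm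
  have hγ' : Continuous fun t => γ t ∘ ρ := by
    refine continuous_pi fun x => ?_
    exact (continuous_apply (ρ x)).comp hγ
  have h6 := ft_along S c d hcd (fun t => γ t ∘ ρ) hγ' s hs
    (fun t => by rw [S.perm]; exact hF t) ho' (S.s i φ) h5
  rw [h6, hq]

private theorem cm_re0 (hm : 2 ≤ m) (hk : 0 < k) (u : ℂ) :
    (cm k m u (-1) ⟨0, hk⟩).re = ((m : ℝ) - 1) / 2 + Real.exp (-1) *
      (1 / 2 - (Complex.exp u).re / 2 - ((m : ℝ) - 1) / 2) := by
  have h0 : (0 : ℕ) < m := by omega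
  have he : Complex.exp (-1) = ((Real.exp (-1) : ℝ) : ℂ) := by push_cast; rfl
  simp only [cm, pm, h0, if_true, he]
  generalize Real.exp (-1) = E
  simp

private theorem cm_re1 (hm : 2 ≤ m) (hk : 1 < k) (u : ℂ) :
    (cm k m u (-1) ⟨1, hk⟩).re = ((m : ℝ) - 1) / 2 + Real.exp (-1) *
      (1 / 2 + (Complex.exp u).re / 2 - ((m : ℝ) - 1) / 2) := by
  have h0 : (1 : ℕ) < m := by omega
  have he : Complex.exp (-1) = ((Real.exp (-1) : ℝ) : ℂ) := by push_cast; rfl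
  simp only [cm, pm, h0, if_true, he, one_ne_zero, if_false]
  generalize Real.exp (-1) = E
  simp

private theorem cm_re2 (u : ℂ) (x : Fin k) (h2 : 2 ≤ (x : ℕ)) (hx : (x : ℕ) < m) :
    (cm k m u (-1) x).re = ((m : ℝ) - 1) / 2 + Real.exp (-1) * (((x : ℕ) : ℝ) - ((m : ℝ) - 1) / 2) := by
  have he : Complex.exp (-1) = ((Real.exp (-1) : ℝ) : ℂ) := by push_cast; rfl
  have h0 : (x : ℕ) ≠ 0 := by omega
  have h1 : (x : ℕ) ≠ 1 := by omega
  simp only [cm, pm, hx, if_true, he, h0, h1, if_false]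
  generalize Real.exp (-1) = E
  simp

private theorem cm_re3 (u : ℂ) (x : Fin k) (hx : m ≤ (x : ℕ)) :
    (cm k m u (-1) x).re = ((x : ℕ) : ℝ) := by
  simp only [cm, not_lt.2 hx, if_false]
  simp

private theorem ft_re (hm : 2 ≤ m) (u : ℂ) (hu : u ∈ Hl)
    (a b : Fin k) (hab : a < b) (hne : ¬ ((a : ℕ) = 0 ∧ (b : ℕ) = 1)) :
    (cm k m u (-1) a).re < (cm k m u (-1) b).re := by
  have hn : |(Complex.exp u).re| < 1 := by
    refine (Complex.abs_re_le_norm _).trans_lt ?_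
    rw [Complex.norm_exp]
    exact (Real.exp_lt_one_iff).2 hu
  have hu1 := abs_lt.1 hn
  have hE := Real.exp_pos (-1)
  have hab0 : (a : ℕ) < b := hab
  have hab1 : ((a : ℕ) : ℝ) + 1 ≤ ((b : ℕ) : ℝ) := by exact_mod_cast hab0
  by_cases hb : (b : ℕ) < m
  · have hb2 : 2 ≤ (b : ℕ) := by omega
    have hb3 : (2 : ℝ) ≤ ((b : ℕ) : ℝ) := by exact_mod_cast hb2
    rw [cm_re2 u b hb2 hb]
    have key : ∀ t : ℝ, t < ((b : ℕ) : ℝ) → ((m : ℝ) - 1) / 2 + Real.exp (-1) * (t - ((m : ℝ) - 1) / 2) <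
        ((m : ℝ) - 1) / 2 + Real.exp (-1) * (((b : ℕ) : ℝ) - ((m : ℝ) - 1) / 2) := by
      intro t ht
      have := mul_lt_mul_of_pos_left ht hE
      nlinarith
    rcases Nat.lt_or_ge (a : ℕ) 2 with ha | ha
    · obtain ha0 | ha1 : (a : ℕ) = 0 ∨ (a : ℕ) = 1 := by omega
      · have ea : a = ⟨0, by omega⟩ := Fin.ext ha0
        rw [ea, cm_re0 hm]
        exact key _ (by linarith)
      · have ea : a = ⟨1, by omega⟩ := Fin.ext ha1
        rw [ea, cm_re1 hm]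
        exact key _ (by linarith)
    · rw [cm_re2 u a ha (by omega)]
      exact key _ (by linarith)
  · have hb1 : m ≤ (b : ℕ) := by omega
    have hb2 : (m : ℝ) ≤ ((b : ℕ) : ℝ) := by exact_mod_cast hb1
    rw [cm_re3 u b hb1]
    rcases Nat.lt_or_ge (a : ℕ) m with ha | ha
    · have := cm_re (k := k) hm u (-1) hu neg_one_hl a ha
      linarith
    · rw [cm_re3 u a ha]
      linarith

private theorem ft_imu (hm : 2 ≤ m) (hk : 1 < k) (u : ℂ) (h : 0 < (Complex.exp u).im) :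
    (cm k m u (-1) ⟨0, by omega⟩).im < (cm k m u (-1) ⟨1, hk⟩).im := by
  have he : Complex.exp (-1) = ((Real.exp (-1) : ℝ) : ℂ) := by push_cast; rfl
  have h0 : (0 : ℕ) < m := by omega
  have h1 : (1 : ℕ) < m := by omega
  have e0 : (cm k m u (-1) ⟨0, by omega⟩).im = Real.exp (-1) * (-(Complex.exp u).im / 2) := by
    simp only [cm, pm, h0, if_true, he]
    generalize Real.exp (-1) = E
    simp
    ring
  have e1 : (cm k m u (-1) ⟨1, hk⟩).im = Real.exp (-1) * ((Complex.exp u).im / 2) := by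
    simp only [cm, pm, h1, if_true, he, one_ne_zero, if_false]
    generalize Real.exp (-1) = E
    simp
  rw [e0, e1]
  exact mul_lt_mul_of_pos_left (by linarith) (Real.exp_pos _)

private theorem ft_exp_im (y : ℝ) (h : 0 < y) (h' : y < Real.pi) :
    0 < (Complex.exp (-1 + y * Complex.I)).im := by
  rw [Complex.exp_im]
  have : (-1 + (y : ℂ) * Complex.I).im = y := by simp
  rw [this]
  exact mul_pos (Real.exp_pos _) (Real.sin_pos_of_pos_of_lt_pi h h')

private theorem ft_Hl (y : ℝ) : (-1 + y * Complex.I : ℂ) ∈ Hl := by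
  show (-1 + y * Complex.I : ℂ).re < 0
  simp

private theorem ft_Hl1 : (-1 : ℂ) ∈ Hl := by
  show (-1 : ℂ).re < 0
  simp

private theorem ft_Hl_add (u : ℂ) (hu : u ∈ Hl) : u + Real.pi * Complex.I ∈ Hl := by
  show (u + Real.pi * Complex.I : ℂ).re < 0
  have : u.re < 0 := hu
  simpa using this

private theorem ft_Hl_preconn : PreconnectedSpace (Hl ×ˢ Hl : Set (ℂ × ℂ)) := by
  have h1 : Convex ℝ Hl := by
    have := convex_halfSpace_re_lt (0 : ℝ)
    exact this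
  exact Subtype.preconnectedSpace (h1.prod h1).isPreconnected

/-- sections over the family are determined by one value -/
private theorem ft_uniq (S : Sys k W) (hm : 2 ≤ m) (hk : m ≤ k)
    (f g : ℂ × ℂ → W) (hf : ContinuousOn f (Hl ×ˢ Hl)) (hg : ContinuousOn g (Hl ×ˢ Hl))
    (hfF : ∀ u ∈ Hl, ∀ v ∈ Hl, f (u, v) ∈ S.F (cm k m u v))
    (hgF : ∀ u ∈ Hl, ∀ v ∈ Hl, g (u, v) ∈ S.F (cm k m u v)) (h : f (-1, -1) = g (-1, -1))
    (u v : ℂ) (hu : u ∈ Hl) (hv : v ∈ Hl) : f (u, v) = g (u, v) := by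
  have hp := ft_Hl_preconn
  have h1 := S.uniq (Hl ×ˢ Hl : Set (ℂ × ℂ))
    ⟨fun z => cm k m z.1.1 z.1.2, (cm_diff k m).continuous.comp continuous_subtype_val⟩
    (fun z => cm_conf hm hk z.1.1 z.1.2 z.2.1 z.2.2)
    ⟨fun z => f z.1, hf.comp_continuous continuous_subtype_val fun z => z.2⟩
    ⟨fun z => g z.1, hg.comp_continuous continuous_subtype_val fun z => z.2⟩
    (fun z => hfF z.1.1 z.2.1 z.1.2 z.2.2) (fun z => hgF z.1.1 z.2.1 z.1.2 z.2.2)
    ⟨⟨(-1, -1), ft_Hl1, ft_Hl1⟩, h⟩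
  exact congrArg (fun F : C((Hl ×ˢ Hl : Set (ℂ × ℂ)), W) => F ⟨(u, v), hu, hv⟩) h1

private theorem ft_cm_cont (f g : ℝ → ℂ) (hf : Continuous f) (hg : Continuous g) :
    Continuous fun t => cm k m (f t) (g t) :=
  (cm_diff k m).continuous.comp (hf.prodMk hg)

private theorem ft_X_cont (S : Sys k W) (X : S.F (base k) → ℂ → ℂ → W)
    (hX : IsFamM S m X) (φ : S.F (base k)) (f g : ℝ → ℂ) (hf : Continuous f) (hg : Continuous g)
    (hf' : ∀ t, f t ∈ Hl) (hg' : ∀ t, g t ∈ Hl) : Continuous fun t => X φ (f t) (g t) :=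
  (hX.cont φ).comp_continuous (hf.prodMk hg) fun t => ⟨hf' t, hg' t⟩

theorem famM_tru (S : Sys k W) (hm : 2 ≤ m) (hk : m ≤ k) (X : S.F (base k) → ℂ → ℂ → W)
    (hX : IsFamM S m X) (φ : S.F (base k)) (u v : ℂ) (hu : u ∈ Hl) (hv : v ∈ Hl) :
    X φ (u + Real.pi * Complex.I) v = X (S.s 0 φ) u v := by
  have hpi := Real.pi_pos
  have hline : Continuous fun t : ℝ => (-1 + t * Complex.I : ℂ) := by fun_prop
  have hsh : ∀ t : ℝ, (-1 + t * Complex.I : ℂ) = (-1 + ((t - Real.pi : ℝ) : ℂ) * Complex.I) +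
      Real.pi * Complex.I := by
    intro t
    push_cast
    ring
  have hk2 : 2 ≤ k := by omega
  have hcr := cm_cross hk2 hm (-1) (by norm_num) (Real.pi / 4) (3 * Real.pi / 4)
    (by positivity) (by linarith) (by linarith) (by linarith) (-1) (by norm_num)
  have hperm : ∀ t : ℝ, cm k m (-1 + t * Complex.I) (-1) ∘
      Equiv.swap ⟨0, by omega⟩ ⟨1, by omega⟩ =
      cm k m (-1 + ((t - Real.pi : ℝ) : ℂ) * Complex.I) (-1) := by
    intro t
    rw [hsh t, cm_tru hk2 hm]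
    funext x
    simp
  have key : X φ (-1 + (Real.pi : ℝ) * Complex.I) (-1) = S.val (S.s 0 φ) (cm k m (-1) (-1)) := by
    refine ft_one S 0 (by omega) ⟨0, by omega⟩ ⟨1, by omega⟩
      (fun t => cm k m (-1 + t * Complex.I) (-1)) (ft_cm_cont _ _ hline continuous_const)
      (fun t => X φ (-1 + t * Complex.I) (-1))
      (ft_X_cont S X hX φ _ _ hline continuous_const ft_Hl fun _ => ft_Hl1)
      (fun t => hX.mem φ _ (ft_Hl t) _ ft_Hl1) 0 (Real.pi / 4) (3 * Real.pi / 4) Real.pi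
      (by positivity) (by linarith) (by linarith) ?_ ?_
      (Equiv.swap ⟨0, by omega⟩ ⟨1, by omega⟩) ?_ ?_ ?_ φ ?_ _ ?_
    · rintro t ⟨h1, h2⟩
      exact cm_ord1 hm _ (ft_Hl t) (ft_exp_re t (by rw [abs_lt]; constructor <;> linarith))
    · rintro t ⟨h1, h2⟩
      refine ⟨fun a b hab hne => ?_, ?_⟩
      · exact ft_re hm _ (ft_Hl t) a b hab fun h => hne ⟨Fin.ext h.1, Fin.ext h.2⟩
      · exact ft_imu hm (by omega) _ (ft_exp_im t (by linarith) (by linarith))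
    · rintro t ⟨h1, h2⟩
      show cm k m (-1 + t * Complex.I) (-1) ∘ Equiv.swap ⟨0, by omega⟩ ⟨1, by omega⟩ ∈ Ord k
      rw [hperm t]
      exact cm_ord1 hm _ (ft_Hl _) (ft_exp_re _ (by rw [abs_lt]; constructor <;> linarith))
    · have := hcr.1
      simpa using this
    · have := hcr.2
      simpa using this
    · have := hX.one φ
      simpa using this
    · show cm k m (-1 + (Real.pi : ℝ) * Complex.I) (-1) ∘
        Equiv.swap ⟨0, by omega⟩ ⟨1, by omega⟩ = _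
      rw [hperm]
      simp
  refine ft_uniq S hm hk (fun z => X φ (z.1 + Real.pi * Complex.I) z.2)
    (fun z => X (S.s 0 φ) z.1 z.2) ?_ (hX.cont _) ?_ (hX.mem _) ?_ u v hu hv
  · refine (hX.cont φ).comp (f := fun z : ℂ × ℂ => (z.1 + Real.pi * Complex.I, z.2))
      (by fun_prop) fun z hz => ⟨ft_Hl_add _ hz.1, hz.2⟩
  · intro u hu v hv
    have h1 := hX.mem φ _ (ft_Hl_add u hu) v hv
    rw [cm_tru hk2 hm, S.perm] at h1
    exact h1
  · show X φ (-1 + Real.pi * Complex.I) (-1) = X (S.s 0 φ) (-1) (-1)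
    rw [hX.one, ← key]

end Pool.Agent.Helper93.L6
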