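import Pool.Agent.Helper96.LN3.LinkA3
import Pool.Agent.Helper2.LN.CrossLem

/-!
# LN6-P3 (MP_730da0_ag): one full rotation is `A ^ m`

Paper proof.  `H, ρ, t₀` from `linkA3 m`.
(1) For a section `L` over `H` with `L (1, t₀) = val φ (H (1, t₀))`: `L (1, t₀ + m) = val (A^m φ) (H (1, t₀))`: iterate the last statement of `linkA3` (`L (1, · + j)` is a section over `H (1, ·) ∘ ρ^j`, `S.perm`).
(2) Let `K (u, θ) = e^(iθ) H (u, t₀)` (a rotation about `0`) and `M` the section over `K` (lift over `ℝ × ℝ`) with `M (0, 0) = L (0, t₀)`.  `M (u, 0) = L (u, t₀)` (both sections over `u ↦ H (u, t₀)`).  `rotA m t = e^(2πi t/m) rotA m 0`,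
so `M (0, 2π t / m) = L (0, t₀ + t)` (sections over the same path, equal for `t = 0`), `M (0, 2π) = L (0, t₀ + m)`.  `u ↦ M (u, 2π)` and `u ↦ L (u, t₀ + m)` are sections over `u ↦ H (u, t₀)` and `u ↦ H (u, t₀) ∘ ρ^m`: equal for
`u = 0`, so for `u = 1` (`S.perm`, `S.uniq`): `M (1, 2π) = val (A^m φ) (H (1, t₀))`.  `M (1, ·)` is the section over the rotation of `q₁ = H (1, t₀)` about `0` with the value `val φ q₁` at `θ = 0`.  So `full_twist` holds for `q₁`, `c = 0`
(sections with one common value are equal).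
(3) General `q`, `c`: with `x = srt q₁`, `y = srt q` in `Ord m` (convex; `val_perm`: relabelling changes nothing) take `K' (u, θ) = c u + e^(iθ) (y_u - c u)`, `y_u = (1-u) x + u y`, `c_u = u c` and the section `M'` over `K'` with
`M' (0, 0) = val φ x`.  `M' (u, 0) = val φ y_u` (`T_along`, `T_val` on the convex set `Ord m`), `M' (0, 2π) = val (A^m φ) x` by (2), so `M' (u, 2π) = val (A^m φ) y_u`.  (`u` in `unitInterval`, or clamp it.)
-/

namespace Pool.Agent.Helper93.L6

open Pool.Agent.Helper2.LN Pool.Agent.Helper96.LN3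

variable {m : ℕ} {W : Type} [TopologicalSpace W]

private theorem tw_rotA (m : ℕ) (hm : 2 ≤ m) (t t' : ℝ) (l : Fin m) :
    rotA m (t + t') l = Complex.exp ((2 * Real.pi * t' / m : ℝ) * Complex.I) * rotA m t l := by
  have hm0 : (m : ℂ) ≠ 0 := by
    have : (m : ℕ) ≠ 0 := by omega
    exact_mod_cast this
  unfold rotA
  rw [mul_left_comm, ← Complex.exp_add]
  congr 2
  push_cast
  field_simp
  ring

private theorem tw_conf_smul (q : Fin m → ℂ) (hq : q ∈ Conf m) (c z : ℂ) (hz : z ≠ 0) :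
    (fun l => c + z * (q l - c)) ∈ Conf m := by
  intro i j hij
  apply hq
  have h1 : z * (q i - c) = z * (q j - c) := add_left_cancel hij
  have h2 := mul_left_cancel₀ hz h1
  exact sub_left_injective h2

/-- two sections over one path are equal if they agree once -/
private theorem tw_uniq (S : Sys m W) (γ : ℝ → (Fin m → ℂ)) (hγ : Continuous γ) (hC : ∀ t, γ t ∈ Conf m)
    (s s' : C(ℝ, W)) (hs : ∀ t, s t ∈ S.F (γ t)) (hs' : ∀ t, s' t ∈ S.F (γ t)) (t₀ : ℝ)
    (h : s t₀ = s' t₀) (t : ℝ) : s t = s' t :=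
  congrArg (fun f : C(ℝ, W) => f t) (S.uniq ℝ ⟨γ, hγ⟩ hC s s' hs hs' ⟨t₀, h⟩)

/-- parts (1) and (2): the statement for one configuration -/
private theorem tw_one (hm : 2 ≤ m) (S : Sys m W) : ∃ q₁ ∈ Gen m, ∀ φ : S.F (base m), ∀ s : C(ℝ, W),
    (∀ θ : ℝ, s θ ∈ S.F fun l => Complex.exp (θ * Complex.I) * q₁ l) → s 0 = S.val φ q₁ →
    s (2 * Real.pi) = S.val ((S.A ^ m) φ) q₁ := by
  obtain ⟨H, ρ, t₀, hHc, hHC, hH0, hHper, hHG, hlink⟩ := linkA3 m hm
  refine ⟨H (1, t₀), hHG, ?_⟩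
  have hF : ∀ (u t : ℝ) (j : ℕ), S.F (H (u, t + j)) = S.F (H (u, t)) := by
    intro u t j
    induction j with
    | zero => simp
    | succ j ih =>
      rw [show (t + ((j + 1 : ℕ) : ℝ)) = (t + j) + 1 by push_cast; ring, hHper, S.perm, ih]
  intro φ s hs hs0
  have hm0 : (m : ℝ) ≠ 0 := by
    have : (m : ℕ) ≠ 0 := by omega
    exact_mod_cast this
  obtain ⟨L, hL0, hL⟩ := S.lift (ℝ × ℝ) ⟨H, hHc⟩ hHC (1, t₀) (S.val φ (H (1, t₀)))
    (S.val_mem φ _ hHG)
  -- (1)
  have h1 : ∀ j : ℕ, L (1, t₀ + j) = S.val ((S.A ^ j) φ) (H (1, t₀)) := by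
    intro j
    induction j with
    | zero => simpa using hL0
    | succ j ih =>
      let sj : C(ℝ, W) := L.comp ⟨fun t => ((1 : ℝ), t + (j : ℝ)), by fun_prop⟩
      have e1 : ∀ t, sj t = L (1, t + j) := fun t => rfl
      have e2 := hlink W S ((S.A ^ j) φ) sj (fun t => by
        rw [e1, ← hF 1 t j]
        exact hL (1, t + j)) (by rw [e1, ih])
      rw [e1] at e2
      rw [show (t₀ + ((j + 1 : ℕ) : ℝ)) = t₀ + 1 + j by push_cast; ring, e2, pow_succ',
        Equiv.Perm.mul_apply]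
  -- (2)
  have hKc : Continuous fun z : ℝ × ℝ => (fun l => Complex.exp ((z.2 : ℝ) * Complex.I) * H (z.1, t₀) l) := by
    refine continuous_pi fun l => ?_
    have h2 : Continuous fun z : ℝ × ℝ => H (z.1, t₀) l :=
      (continuous_apply l).comp (hHc.comp (by fun_prop))
    have h3 : Continuous fun z : ℝ × ℝ => Complex.exp ((z.2 : ℝ) * Complex.I) := by fun_prop
    exact h3.mul h2
  have hKC : ∀ z : ℝ × ℝ, (fun l => Complex.exp ((z.2 : ℝ) * Complex.I) * H (z.1, t₀) l) ∈ Conf m := by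
    intro z i j hij
    exact hHC _ (mul_left_cancel₀ (Complex.exp_ne_zero _) hij)
  obtain ⟨M, hM0, hM⟩ := S.lift (ℝ × ℝ) ⟨_, hKc⟩ hKC (0, 0) (L (0, t₀)) (by
    have := hL (0, t₀)
    simpa using this)
  have hMF : ∀ u θ : ℝ, M (u, θ) ∈ S.F fun l => Complex.exp ((θ : ℝ) * Complex.I) * H (u, t₀) l :=
    fun u θ => hM (u, θ)
  have hHu : Continuous fun u : ℝ => H (u, t₀) := hHc.comp (by fun_prop)
  have hMu0 : ∀ u, M (u, 0) = L (u, t₀) := by
    intro u
    refine tw_uniq S (fun u => H (u, t₀)) hHu (fun u => hHC _)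
      (M.comp ⟨fun u => (u, (0 : ℝ)), by fun_prop⟩) (L.comp ⟨fun u => (u, t₀), by fun_prop⟩) ?_ ?_ 0 ?_ u
    · intro u
      have := hMF u 0
      simpa using this
    · intro u
      exact hL (u, t₀)
    · exact hM0
  have hM0θ : ∀ t : ℝ, M (0, 2 * Real.pi * t / m) = L (0, t₀ + t) := by
    intro t
    refine tw_uniq S (fun t => H (0, t₀ + t)) (hHc.comp (by fun_prop)) (fun t => hHC _)
      (M.comp ⟨fun t => ((0 : ℝ), 2 * Real.pi * t / m), by fun_prop⟩)
      (L.comp ⟨fun t => ((0 : ℝ), t₀ + t), by fun_prop⟩) ?_ ?_ 0 ?_ t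
    · intro t
      have h3 := hMF 0 (2 * Real.pi * t / m)
      have h4 : (fun l => Complex.exp (((2 * Real.pi * t / m : ℝ) : ℂ) * Complex.I) * H (0, t₀) l) =
          H (0, t₀ + t) := by
        funext l
        rw [hH0, hH0, tw_rotA m hm]
      rw [h4] at h3
      exact h3
    · intro t
      exact hL (0, t₀ + t)
    · show M ((0 : ℝ), 2 * Real.pi * 0 / m) = L ((0 : ℝ), t₀ + 0)
      rw [mul_zero, zero_div, add_zero]
      exact hM0
  have h2 : M (0, 2 * Real.pi) = L (0, t₀ + m) := by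
    have := hM0θ m
    rwa [mul_div_assoc, div_self hm0, mul_one] at this
  have hexp : Complex.exp (((2 * Real.pi : ℝ) : ℂ) * Complex.I) = 1 := by
    push_cast
    exact Complex.exp_two_pi_mul_I
  have h3 : M (1, 2 * Real.pi) = L (1, t₀ + m) := by
    refine tw_uniq S (fun u => H (u, t₀)) hHu (fun u => hHC _)
      (M.comp ⟨fun u => (u, 2 * Real.pi), by fun_prop⟩) (L.comp ⟨fun u => (u, t₀ + m), by fun_prop⟩) ?_ ?_ 0
      h2 1
    · intro u
      have h4 := hMF u (2 * Real.pi)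
      rw [hexp] at h4
      simpa using h4
    · intro u
      rw [← hF u t₀ m]
      exact hL (u, t₀ + m)
  have h4 : s (2 * Real.pi) = M (1, 2 * Real.pi) := by
    refine tw_uniq S (fun θ => fun l => Complex.exp ((θ : ℝ) * Complex.I) * H (1, t₀) l) ?_ ?_ s
      (M.comp ⟨fun θ => (1, θ), by fun_prop⟩) hs (fun θ => hMF 1 θ) 0 ?_ _
    · exact hKc.comp (by fun_prop : Continuous fun θ : ℝ => ((1 : ℝ), θ))
    · intro θ
      exact hKC (1, θ)
    · show s 0 = M (1, 0)
      rw [hs0, hMu0, hL0]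
  rw [h4, h3, h1]

private noncomputable def tw_cl (u : ℝ) : ℝ := max 0 (min 1 u)

private theorem tw_cl_mem (u : ℝ) : 0 ≤ tw_cl u ∧ tw_cl u ≤ 1 :=
  ⟨le_max_left _ _, max_le zero_le_one (min_le_left _ _)⟩

private theorem tw_cl_cont : Continuous tw_cl := by
  unfold tw_cl
  fun_prop

theorem full_twist (hm : 2 ≤ m) (S : Sys m W) (q : Fin m → ℂ) (hq : q ∈ Gen m) (c : ℂ) (φ : S.F (base m))
    (s : C(ℝ, W)) (hs : ∀ θ : ℝ, s θ ∈ S.F fun l => c + Complex.exp (θ * Complex.I) * (q l - c))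
    (h0 : s 0 = S.val φ q) : s (2 * Real.pi) = S.val ((S.A ^ m) φ) q := by
  obtain ⟨q₁, hq₁, hone⟩ := tw_one hm S
  set x := srt q₁ with hx
  set y := srt q with hy
  have hxO : x ∈ Ord m := srt_mem q₁ hq₁
  have hyO : y ∈ Ord m := srt_mem q hq
  have hOC : Ord m ⊆ Conf m := (Ord_subset_Gen m).trans (Gen_subset_Conf m)
  -- the path from `x` to `y`
  let Y : ℝ → (Fin m → ℂ) := fun u => (1 - tw_cl u) • x + tw_cl u • y
  have hYO : ∀ u, Y u ∈ Ord m := fun u =>
    convex_Ord m hxO hyO (by linarith [(tw_cl_mem u).2]) (tw_cl_mem u).1 (by ring)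
  have hYc : Continuous Y := by
    have := tw_cl_cont
    fun_prop
  have hY0 : Y 0 = x := by
    have : tw_cl 0 = 0 := by simp [tw_cl]
    simp [Y, this]
  have hY1 : Y 1 = y := by
    have : tw_cl 1 = 1 := by simp [tw_cl]
    simp [Y, this]
  let K : ℝ × ℝ → (Fin m → ℂ) := fun z => fun l =>
    (tw_cl z.1 : ℂ) * c + Complex.exp ((z.2 : ℝ) * Complex.I) * (Y z.1 l - (tw_cl z.1 : ℂ) * c)
  have hKc : Continuous K := by
    refine continuous_pi fun l => ?_
    have h1 : Continuous fun z : ℝ × ℝ => Y z.1 l := (continuous_apply l).comp (hYc.comp continuous_fst)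
    have h2 : Continuous fun z : ℝ × ℝ => (tw_cl z.1 : ℂ) :=
      Complex.continuous_ofReal.comp (tw_cl_cont.comp continuous_fst)
    have h3 : Continuous fun z : ℝ × ℝ => Complex.exp ((z.2 : ℝ) * Complex.I) := by fun_prop
    exact (h2.mul continuous_const).add (h3.mul (h1.sub (h2.mul continuous_const)))
  have hKC : ∀ z, K z ∈ Conf m := fun z =>
    tw_conf_smul (Y z.1) (hOC (hYO z.1)) _ _ (Complex.exp_ne_zero _)
  have hK0 : ∀ u, K (u, 0) = Y u := by
    intro u
    funext l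
    simp [K]
  have hexp : Complex.exp (((2 * Real.pi : ℝ) : ℂ) * Complex.I) = 1 := by
    push_cast
    exact Complex.exp_two_pi_mul_I
  have hK1 : ∀ u, K (u, 2 * Real.pi) = Y u := by
    intro u
    funext l
    simp only [K, hexp]
    ring
  have hvx : ∀ ψ, S.val ψ x = S.val ψ q₁ := fun ψ => S.val_perm ψ q₁ hq₁ _
  have hvy : ∀ ψ, S.val ψ y = S.val ψ q := fun ψ => S.val_perm ψ q hq _
  have hFx : S.F x = S.F q₁ := S.perm _ _
  obtain ⟨M, hM0, hM⟩ := S.lift (ℝ × ℝ) ⟨K, hKc⟩ hKC (0, 0) (S.val φ x) (by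
    show S.val φ x ∈ S.F (K (0, 0))
    rw [hK0, hY0]
    exact S.val_mem φ x (Ord_subset_Gen m hxO))
  have hMF : ∀ z, M z ∈ S.F (K z) := hM
  have hval : ∀ (ψ : S.F (base m)) (θ : ℝ), (∀ u, K (u, θ) = Y u) → M (0, θ) = S.val ψ x →
      M (1, θ) = S.val ψ y := by
    intro ψ θ hθ hM0'
    have h1 := S.T_along (Ord m) (convex_Ord m) hOC ℝ ⟨Y, hYc⟩ hYO
      (M.comp ⟨fun u => (u, θ), by fun_prop⟩) (fun u => by
        have := hMF (u, θ)
        rwa [hθ] at this) 0 1
    have h2 : M (1, θ) = S.T x y (M (0, θ)) := by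
      rw [← hY0, ← hY1]
      exact h1
    rw [h2, hM0']
    refine S.T_val x y (Ord_subset_Gen m hxO) (Ord_subset_Gen m hyO) (fun i j => ?_) ψ
    constructor
    · intro h
      rcases lt_trichotomy i j with h' | h' | h'
      · exact hyO i j h'
      · rw [h'] at h
        exact absurd h (lt_irrefl _)
      · have := hxO j i h'
        linarith
    · intro h
      rcases lt_trichotomy i j with h' | h' | h'
      · exact hxO i j h'
      · rw [h'] at h
        exact absurd h (lt_irrefl _)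
      · have := hyO j i h'
        linarith
  have h1 : M (0, 2 * Real.pi) = S.val ((S.A ^ m) φ) x := by
    rw [hvx]
    refine hone φ (M.comp ⟨fun θ => ((0 : ℝ), θ), by fun_prop⟩) ?_ ?_
    · intro θ
      have h2 := hMF (0, θ)
      have h3 : K (0, θ) = (fun l => Complex.exp ((θ : ℝ) * Complex.I) * q₁ l) ∘
          (Tuple.sort fun i => (q₁ i).re) := by
        funext l
        have h4 : tw_cl 0 = 0 := by simp [tw_cl]
        simp only [K, hY0, h4]
        simp [hx, srt]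
      rw [h3, S.perm] at h2
      exact h2
    · show M (0, 0) = S.val φ q₁
      rw [hM0, hvx]
  have h2 : M (1, 2 * Real.pi) = S.val ((S.A ^ m) φ) y := hval _ _ hK1 h1
  have h3 : M (1, 0) = S.val φ y := hval _ _ hK0 hM0
  have h4 : s (2 * Real.pi) = M (1, 2 * Real.pi) := by
    refine tw_uniq S (fun θ => fun l => c + Complex.exp ((θ : ℝ) * Complex.I) * (q l - c)) ?_ ?_ s
      (M.comp ⟨fun θ => ((1 : ℝ), θ), by fun_prop⟩) hs ?_ 0 ?_ _
    · fun_prop
    · intro θ
      exact tw_conf_smul q (Gen_subset_Conf m hq) _ _ (Complex.exp_ne_zero _)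
    · intro θ
      have h5 := hMF (1, θ)
      have h6 : K (1, θ) = (fun l => c + Complex.exp ((θ : ℝ) * Complex.I) * (q l - c)) ∘
          (Tuple.sort fun i => (q i).re) := by
        funext l
        have h7 : tw_cl 1 = 1 := by simp [tw_cl]
        simp only [K, hY1, h7]
        simp [hy, srt]
      rw [h6, S.perm] at h5
      exact h5
    · show s 0 = M (1, 0)
      rw [h0, h3, hvy]
  rw [h4, h2, hvy]

end Pool.Agent.Helper93.L6
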