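import Pool.Agent.Helper93.L6.FamM
import Pool.Agent.Helper70.L6.PullA
import Pool.Agent.Helper93.L6.Twist

/-!
# LN6-P6 (MP_730da0_ag): the translation `v → v + 2πi` is the full twist of the first `m` strands

Proof.  Both sides are sections over the family (`cm_trv`), so it is enough to compare them at `(-1, -1)` (`S.uniq`).  With `q = cm m m (-1) (-1)` (in `Ord m`), `c = (m-1)/2` one has
`cm m m (-1) (-1 + iθ) = c + e^(iθ) (q - c)` and `cm k m u v = io m k (cm m m u v)` (the real parts are at most `m - 1`, `cm_re`), so `θ ↦ X φ (-1) (-1 + iθ)` is a section of `pull S` over the rotation of `q` about `c`: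
`full_twist`, `pull_val`, `pull_A`.
-/

namespace Pool.Agent.Helper93.L6

open Pool.Agent.Helper2.LN Pool.Agent.Helper96.LN3 Pool.Agent.Helper70.L6

variable {k m : ℕ} {W : Type} [TopologicalSpace W]

/-- the full twist of the first `m` strands -/
noncomputable def Tw {k : ℕ} {W : Type} [TopologicalSpace W] (S : Sys k W) (m : ℕ) : Equiv.Perm (S.F (base k)) :=
  (((List.range (m - 1)).map S.s).prod) ^ m

private theorem tt_Hl1 : (-1 : ℂ) ∈ Hl := by
  show (-1 : ℂ).re < 0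
  simp

private theorem tt_Hl (y : ℝ) : (-1 + y * Complex.I : ℂ) ∈ Hl := by
  show (-1 + y * Complex.I : ℂ).re < 0
  simp

private theorem tt_Hl_add (u : ℂ) (hu : u ∈ Hl) : u + 2 * Real.pi * Complex.I ∈ Hl := by
  show (u + 2 * Real.pi * Complex.I : ℂ).re < 0
  have h : u.re < 0 := hu
  simpa using h

private theorem tt_preconn : PreconnectedSpace (Hl ×ˢ Hl : Set (ℂ × ℂ)) := by
  have h1 : Convex ℝ Hl := by
    have := convex_halfSpace_re_lt (0 : ℝ)
    exact this
  exact Subtype.preconnectedSpace (h1.prod h1).isPreconnected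

/-- sections over the family are determined by one value -/
private theorem tt_uniq (S : Sys k W) (hm : 2 ≤ m) (hk : m ≤ k)
    (f g : ℂ × ℂ → W) (hf : ContinuousOn f (Hl ×ˢ Hl)) (hg : ContinuousOn g (Hl ×ˢ Hl))
    (hfF : ∀ u ∈ Hl, ∀ v ∈ Hl, f (u, v) ∈ S.F (cm k m u v))
    (hgF : ∀ u ∈ Hl, ∀ v ∈ Hl, g (u, v) ∈ S.F (cm k m u v)) (h : f (-1, -1) = g (-1, -1))
    (u v : ℂ) (hu : u ∈ Hl) (hv : v ∈ Hl) : f (u, v) = g (u, v) := by
  have hp := tt_preconn
  have h1 := S.uniq (Hl ×ˢ Hl : Set (ℂ × ℂ))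
    ⟨fun z => cm k m z.1.1 z.1.2, (cm_diff k m).continuous.comp continuous_subtype_val⟩
    (fun z => cm_conf hm hk z.1.1 z.1.2 z.2.1 z.2.2)
    ⟨fun z => f z.1, hf.comp_continuous continuous_subtype_val fun z => z.2⟩
    ⟨fun z => g z.1, hg.comp_continuous continuous_subtype_val fun z => z.2⟩
    (fun z => hfF z.1.1 z.2.1 z.1.2 z.2.2) (fun z => hgF z.1.1 z.2.1 z.1.2 z.2.2)
    ⟨⟨(-1, -1), tt_Hl1, tt_Hl1⟩, h⟩
  exact congrArg (fun F : C((Hl ×ˢ Hl : Set (ℂ × ℂ)), W) => F ⟨(u, v), hu, hv⟩) h1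

/-- the family for `k` points is the family for `m` points with the other points at their places -/
theorem cm_io (hm : 2 ≤ m) (u v : ℂ) (hu : u ∈ Hl) (hv : v ∈ Hl) : cm k m u v = io m k (cm m m u v) := by
  funext j
  rw [io_of_le _ fun i => cm_re hm u v hu hv i i.2]
  unfold cm
  by_cases h : (j : ℕ) < m
  · rw [if_pos h, dif_pos h]
    show _ = if (j : ℕ) < m then _ else _
    rw [if_pos h]
  · rw [if_neg h, dif_neg h]

/-- the rotation -/
theorem cm_rot (u v : ℂ) (θ : ℝ) : cm m m u (v + θ * Complex.I) = fun l =>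
    ((m : ℂ) - 1) / 2 + Complex.exp (θ * Complex.I) * (cm m m u v l - ((m : ℂ) - 1) / 2) := by
  funext l
  unfold cm
  rw [if_pos l.2, if_pos l.2, Complex.exp_add]
  ring

/-- powers of `A` under the pull-back -/
theorem pull_A_pow (hk : m ≤ k) (S : Sys k W) (φ : (pull hk S).F (base m)) (n : ℕ) :
    tb hk S (((pull hk S).A ^ n) φ) = ((((List.range (m - 1)).map S.s).prod) ^ n) (tb hk S φ) := by
  induction n with
  | zero => rfl
  | succ n ih =>
    rw [pow_succ', Equiv.Perm.mul_apply, pull_A, ih, pow_succ', Equiv.Perm.mul_apply]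

theorem famM_trv (S : Sys k W) (hm : 2 ≤ m) (hk : m ≤ k) (X : S.F (base k) → ℂ → ℂ → W)
    (hX : IsFamM S m X) (φ : S.F (base k)) (u v : ℂ) (hu : u ∈ Hl) (hv : v ∈ Hl) :
    X φ u (v + 2 * Real.pi * Complex.I) = X (Tw S m φ) u v := by
  have hord : cm m m (-1) (-1) ∈ Ord m := by
    have h := cm_ord (k := m) hm (-1) tt_Hl1 (by
      have e : (-1 : ℂ) = ((-1 : ℝ) : ℂ) := by push_cast; rfl
      rw [e, ← Complex.ofReal_exp, Complex.ofReal_re]
      exact Real.exp_pos _) (-1) (by norm_num)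
    simpa using h
  have hline : Continuous fun t : ℝ => (-1 + t * Complex.I : ℂ) := by fun_prop
  let s : C(ℝ, W) := ⟨fun t => X φ (-1) (-1 + t * Complex.I),
    (hX.cont φ).comp_continuous (continuous_const.prodMk hline) fun t => ⟨tt_Hl1, tt_Hl t⟩⟩
  have hs : ∀ θ : ℝ, s θ ∈ (pull hk S).F fun l => ((m : ℂ) - 1) / 2 +
      Complex.exp (θ * Complex.I) * (cm m m (-1) (-1) l - ((m : ℂ) - 1) / 2) := by
    intro θ
    rw [← cm_rot, pull_F, ← cm_io hm _ _ tt_Hl1 (tt_Hl θ)]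
    exact hX.mem φ _ tt_Hl1 _ (tt_Hl θ)
  have h0 : s 0 = (pull hk S).val ((tb hk S).symm φ) (cm m m (-1) (-1)) := by
    rw [pull_val hk S _ _ (Ord_subset_Gen m hord), Equiv.apply_symm_apply,
      ← cm_io hm _ _ tt_Hl1 tt_Hl1, ← hX.one φ]
    show X φ (-1) (-1 + ((0 : ℝ) : ℂ) * Complex.I) = X φ (-1) (-1)
    simp
  have h1 := full_twist hm (pull hk S) (cm m m (-1) (-1)) (Ord_subset_Gen m hord) (((m : ℂ) - 1) / 2)
    ((tb hk S).symm φ) s hs h0
  rw [pull_val hk S _ _ (Ord_subset_Gen m hord), pull_A_pow, Equiv.apply_symm_apply,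
    ← cm_io hm _ _ tt_Hl1 tt_Hl1] at h1
  have key : X φ (-1) (-1 + 2 * Real.pi * Complex.I) = S.val (Tw S m φ) (cm k m (-1) (-1)) := by
    have h2 : s (2 * Real.pi) = X φ (-1) (-1 + 2 * Real.pi * Complex.I) := by
      show X φ (-1) (-1 + ((2 * Real.pi : ℝ) : ℂ) * Complex.I) = _
      push_cast
      rfl
    rw [← h2, h1]
    rfl
  refine tt_uniq S hm hk (fun z => X φ z.1 (z.2 + 2 * Real.pi * Complex.I))
    (fun z => X (Tw S m φ) z.1 z.2) ?_ (hX.cont _) ?_ (hX.mem _) ?_ u v hu hv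
  · refine (hX.cont φ).comp (f := fun z : ℂ × ℂ => (z.1, z.2 + 2 * Real.pi * Complex.I))
      (by fun_prop) fun z hz => ⟨hz.1, tt_Hl_add _ hz.2⟩
  · intro u hu v hv
    have h1 := hX.mem φ u hu _ (tt_Hl_add v hv)
    rw [cm_trv] at h1
    exact h1
  · show X φ (-1) (-1 + 2 * Real.pi * Complex.I) = X (Tw S m φ) (-1) (-1)
    rw [hX.one, ← key]

end Pool.Agent.Helper93.L6
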