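import Pool.Agent.Helper96.LN3.FamX
import Pool.Agent.Helper96.LN3.LinkA3

/-!
# LN6-P1 (MP_730da0_ag): the system of the first `m` points

`ext k q`: the `m` points `q` and `k - m` points far to the right.  `pull S m` is the system `q ↦ S.F (ext k q)` over `Conf m`.
Paper proofs.
* `ext_conf`, `ext_ord`, `ext_gen`: the new points are real, different, and to the right of all `q j` (`Re (q j) ≤ ‖q j‖`).
* `ext_perm`: a permutation of the first `m` points, extended by the identity.
* `pull_val`: for `q ∈ Gen m`: `srt q ∈ Ord m`, `t ↦ ext k (lineMap (base m) (srt q) t)` is a path in `Ord k` from `ext k (base m)` to `ext k (srt q)`; a section of `S` over a path in `Ord k` keeps its name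
  (`Sys.T_along`, `Sys.T_val`, see `ft_along` in Helper96/LN3/FamX.lean); `val_perm` for `ext k (srt q) = ext k q ∘ π`.
* `pull_s`: take one crossing `a, c` in `Conf m` at the position `i` (`exists_cross`); `ext k a, ext k c` is a crossing at the position `i` in `Conf k`; the path `t ↦ ext k (lineMap a c t)` and the segment from `ext k a` to
  `ext k c` lie in the same convex subset of `Conf k` (all pairs except `l, m` keep the order of the real parts; `Im` of `l` is smaller than `Im` of `m`), so they give the same transport (`Sys.T_along`); `crossProp_s` for both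
  systems, `pull_val`, `val_inj`.
* `pull_prod`: induction on `m'` from `pull_s`.
-/

namespace Pool.Agent.Helper93.L6

open Pool.Agent.Helper2.LN Pool.Agent.Helper96.LN3

variable {k m : ℕ} {W : Type} [TopologicalSpace W]

/-- The points `q` and `k - m` points far to the right. -/
noncomputable def ext (k : ℕ) {m : ℕ} (q : Fin m → ℂ) : Fin k → ℂ := fun l =>
  if h : (l : ℕ) < m then q ⟨l, h⟩ else (((∑ j, ‖q j‖) + 1 + (l : ℕ) : ℝ) : ℂ)

theorem ext_cont (k m : ℕ) : Continuous fun q : Fin m → ℂ => ext k q := by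
  refine continuous_pi fun l => ?_
  unfold ext
  split_ifs with h
  · exact continuous_apply _
  · fun_prop

private theorem ext_lt (q : Fin m → ℂ) (l : Fin k) (h : (l : ℕ) < m) : ext k q l = q ⟨l, h⟩ := dif_pos h

private theorem ext_ge (q : Fin m → ℂ) (l : Fin k) (h : m ≤ (l : ℕ)) :
    ext k q l = (((∑ j, ‖q j‖) + 1 + (l : ℕ) : ℝ) : ℂ) := dif_neg (not_lt.2 h)

private theorem ext_re_lt (q : Fin m → ℂ) (l : Fin k) (h : (l : ℕ) < m) :
    (ext k q l).re < (∑ j, ‖q j‖) + 1 := by
  rw [ext_lt q l h]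
  have h1 : (q ⟨l, h⟩).re ≤ ‖q ⟨l, h⟩‖ := Complex.re_le_norm _
  have h2 : ‖q ⟨l, h⟩‖ ≤ ∑ j, ‖q j‖ :=
    Finset.single_le_sum (f := fun j => ‖q j‖) (fun j _ => norm_nonneg _) (Finset.mem_univ _)
  linarith

private theorem ext_re_ge (q : Fin m → ℂ) (l : Fin k) (h : m ≤ (l : ℕ)) :
    (ext k q l).re = (∑ j, ‖q j‖) + 1 + (l : ℕ) := by
  rw [ext_ge q l h, Complex.ofReal_re]

private theorem ext_re_iff (q : Fin m → ℂ) (i j : Fin k) : (ext k q i).re < (ext k q j).re ↔
    ((∃ (hi : (i : ℕ) < m) (hj : (j : ℕ) < m), (q ⟨i, hi⟩).re < (q ⟨j, hj⟩).re) ∨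
      ((i : ℕ) < m ∧ m ≤ (j : ℕ)) ∨ (m ≤ (i : ℕ) ∧ i < j)) := by
  by_cases hi : (i : ℕ) < m
  · by_cases hj : (j : ℕ) < m
    · rw [ext_lt q i hi, ext_lt q j hj]
      constructor
      · intro h
        exact Or.inl ⟨hi, hj, h⟩
      · rintro (⟨_, _, h⟩ | h | h)
        · exact h
        · exact absurd hj (not_lt.2 h.2)
        · exact absurd hi (not_lt.2 h.1)
    · have h1 := ext_re_lt q i hi
      have h2 := ext_re_ge q j (not_lt.1 hj)
      have h3 : (0 : ℝ) ≤ ((j : ℕ) : ℝ) := Nat.cast_nonneg _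
      constructor
      · intro _
        exact Or.inr (Or.inl ⟨hi, not_lt.1 hj⟩)
      · intro _
        linarith
  · by_cases hj : (j : ℕ) < m
    · have h1 := ext_re_lt q j hj
      have h2 := ext_re_ge q i (not_lt.1 hi)
      have h3 : (0 : ℝ) ≤ ((i : ℕ) : ℝ) := Nat.cast_nonneg _
      constructor
      · intro h
        linarith
      · rintro (⟨h, _, _⟩ | h | h)
        · exact absurd h hi
        · exact absurd h.1 hi
        · have : (i : ℕ) < j := h.2
          omega
    · rw [ext_re_ge q i (not_lt.1 hi), ext_re_ge q j (not_lt.1 hj)]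
      simp only [add_lt_add_iff_left, Nat.cast_lt]
      constructor
      · intro h
        exact Or.inr (Or.inr ⟨not_lt.1 hi, h⟩)
      · rintro (⟨h, _, _⟩ | h | h)
        · exact absurd h hi
        · exact absurd h.1 hi
        · exact h.2

theorem ext_conf (q : Fin m → ℂ) (hq : q ∈ Conf m) : ext k q ∈ Conf k := by
  intro i j hij
  by_cases hi : (i : ℕ) < m
  · by_cases hj : (j : ℕ) < m
    · rw [ext_lt q i hi, ext_lt q j hj] at hij
      have h1 := hq hij
      have h2 : (i : ℕ) = j := by simpa using h1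
      exact Fin.ext h2
    · have h1 := ext_re_lt q i hi
      have h2 := ext_re_ge q j (not_lt.1 hj)
      have h3 : (0 : ℝ) ≤ ((j : ℕ) : ℝ) := Nat.cast_nonneg _
      rw [hij] at h1
      linarith
  · by_cases hj : (j : ℕ) < m
    · have h1 := ext_re_lt q j hj
      have h2 := ext_re_ge q i (not_lt.1 hi)
      have h3 : (0 : ℝ) ≤ ((i : ℕ) : ℝ) := Nat.cast_nonneg _
      rw [hij] at h2
      linarith
    · have h1 := ext_re_ge q i (not_lt.1 hi)
      have h2 := ext_re_ge q j (not_lt.1 hj)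
      rw [hij] at h1
      have h3 : ((i : ℕ) : ℝ) = ((j : ℕ) : ℝ) := by linarith
      exact Fin.ext (by exact_mod_cast h3)

theorem ext_ord (q : Fin m → ℂ) (hq : q ∈ Ord m) : ext k q ∈ Ord k := by
  intro i j hij
  rw [ext_re_iff]
  have hij' : (i : ℕ) < j := hij
  by_cases hi : (i : ℕ) < m
  · by_cases hj : (j : ℕ) < m
    · exact Or.inl ⟨hi, hj, hq _ _ hij'⟩
    · exact Or.inr (Or.inl ⟨hi, not_lt.1 hj⟩)
  · exact Or.inr (Or.inr ⟨not_lt.1 hi, hij⟩)

theorem ext_gen (q : Fin m → ℂ) (hq : q ∈ Gen m) : ext k q ∈ Gen k := by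
  intro i j hij
  by_contra hne
  have hij' : (ext k q i).re = (ext k q j).re := hij
  have key : ∀ i j : Fin k, i ≠ j → (ext k q i).re < (ext k q j).re ∨ (ext k q j).re < (ext k q i).re := by
    intro i j hne
    rw [ext_re_iff, ext_re_iff]
    have hne' : (i : ℕ) ≠ j := fun h => hne (Fin.ext h)
    by_cases hi : (i : ℕ) < m
    · by_cases hj : (j : ℕ) < m
      · have h1 : (q ⟨i, hi⟩).re ≠ (q ⟨j, hj⟩).re := by
          intro h
          have h2 := hq h
          exact hne' (by simpa using h2)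
        rcases lt_or_gt_of_ne h1 with h | h
        · exact Or.inl (Or.inl ⟨hi, hj, h⟩)
        · exact Or.inr (Or.inl ⟨hj, hi, h⟩)
      · exact Or.inl (Or.inr (Or.inl ⟨hi, not_lt.1 hj⟩))
    · by_cases hj : (j : ℕ) < m
      · exact Or.inr (Or.inr (Or.inl ⟨hj, not_lt.1 hi⟩))
      · rcases lt_or_gt_of_ne hne' with h | h
        · exact Or.inl (Or.inr (Or.inr ⟨not_lt.1 hi, h⟩))
        · exact Or.inr (Or.inr (Or.inr ⟨not_lt.1 hj, h⟩))
  rcases key i j hne with h | h <;> linarith

private theorem perm_lt (hm : m ≤ k) (π : Equiv.Perm (Fin m)) (j : Fin k) (h : (j : ℕ) < m) :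
    π.extendDomain (Fin.castLEquiv hm) j = Fin.castLE hm (π ⟨j, h⟩) := by
  rw [Equiv.Perm.extendDomain_apply_subtype π (Fin.castLEquiv hm) h]
  rfl

private theorem perm_ge (hm : m ≤ k) (π : Equiv.Perm (Fin m)) (j : Fin k) (h : m ≤ (j : ℕ)) :
    π.extendDomain (Fin.castLEquiv hm) j = j :=
  Equiv.Perm.extendDomain_apply_not_subtype π (Fin.castLEquiv hm) (not_lt.2 h)

theorem ext_perm (hm : m ≤ k) (π : Equiv.Perm (Fin m)) :
    ∃ ρ : Equiv.Perm (Fin k), ∀ q : Fin m → ℂ, ext k (q ∘ π) = ext k q ∘ ρ := by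
  refine ⟨π.extendDomain (Fin.castLEquiv hm), fun q => ?_⟩
  funext j
  by_cases h : (j : ℕ) < m
  · have h3 : (ext k q ∘ π.extendDomain (Fin.castLEquiv hm)) j = ext k q (Fin.castLE hm (π ⟨j, h⟩)) := by
      rw [Function.comp_apply, perm_lt hm π j h]
    rw [ext_lt (q ∘ π) j h, h3, ext_lt q _ (by simp)]
    rfl
  · have hs : ∑ i, ‖(q ∘ π) i‖ = ∑ i, ‖q i‖ := Equiv.sum_comp π fun i => ‖q i‖
    rw [ext_ge _ j (not_lt.1 h), Function.comp_apply, perm_ge hm π j (not_lt.1 h),
      ext_ge q j (not_lt.1 h), hs]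

/-- The system of the first `m` points. -/
noncomputable def pull (S : Sys k W) (m : ℕ) (hm : m ≤ k) : Sys m W where
  F := fun q => S.F (ext k q)
  perm := by
    intro q π
    obtain ⟨ρ, hρ⟩ := ext_perm (k := k) hm π
    rw [hρ, S.perm]
  lift := by
    intro A _ _ _ γ hγ a₀ w₀ hw
    exact S.lift A ⟨fun a => ext k (γ a), (ext_cont k m).comp γ.continuous⟩ (fun a => ext_conf _ (hγ a)) a₀ w₀ hw
  uniq := by
    intro A _ _ γ hγ s s' hs hs' h
    exact S.uniq A ⟨fun a => ext k (γ a), (ext_cont k m).comp γ.continuous⟩ (fun a => ext_conf _ (hγ a)) s s' hs hs' h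

theorem pull_F (S : Sys k W) (hm : m ≤ k) (q : Fin m → ℂ) : (pull S m hm).F q = S.F (ext k q) := rfl

theorem base_gen (m : ℕ) : base m ∈ Gen m := Ord_subset_Gen m (base_mem_Ord m)

/-- The name in the small system. -/
noncomputable def nm (S : Sys k W) (hm : m ≤ k) (φ : S.F (base k)) : (pull S m hm).F (base m) :=
  ⟨S.val φ (ext k (base m)), S.val_mem φ _ (ext_gen _ (base_gen m))⟩

theorem nm_inj (S : Sys k W) (hm : m ≤ k) : Function.Injective (nm S hm) := by
  intro φ ψ h
  exact S.val_inj φ ψ _ (ext_gen _ (base_gen m)) (congrArg Subtype.val h)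

private theorem pull_T (S : Sys k W) (hm : m ≤ k) (a c : Fin m → ℂ) (h : segment ℝ a c ⊆ Conf m)
    (D : Set (Fin k → ℂ)) (hD : Convex ℝ D) (hDC : D ⊆ Conf k)
    (hin : ∀ x ∈ segment ℝ a c, ext k x ∈ D) (w : W) (hw : w ∈ (pull S m hm).F a) :
    (pull S m hm).T a c w = S.T (ext k a) (ext k c) w := by
  obtain ⟨σ, h1, h2, h3⟩ := (pull S m hm).exists_sec (segment ℝ a c) (convex_segment a c) h a
    (left_mem_segment ℝ a c) w hw
  have hseg : ∀ t : unitInterval, AffineMap.lineMap a c (t : ℝ) ∈ segment ℝ a c := fun t =>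
    (convex_segment a c).lineMap_mem (left_mem_segment ℝ a c) (right_mem_segment ℝ a c) t.2
  have hcl : Continuous fun t : unitInterval => (AffineMap.lineMap a c (t : ℝ) : Fin m → ℂ) :=
    AffineMap.lineMap_continuous.comp continuous_subtype_val
  let γ : C(unitInterval, Fin k → ℂ) := ⟨fun t => ext k (AffineMap.lineMap a c (t : ℝ)),
    (ext_cont k m).comp hcl⟩
  let s : C(unitInterval, W) := ⟨fun t => σ (AffineMap.lineMap a c (t : ℝ)),
    h1.comp_continuous hcl hseg⟩
  have h4 := S.T_along D hD hDC unitInterval γ (fun t => hin _ (hseg t)) s (fun t => h2 _ (hseg t)) 0 1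
  have h5 := (pull S m hm).T_sec (segment ℝ a c) (convex_segment a c) h σ h1 h2 a c
    (left_mem_segment ℝ a c) (right_mem_segment ℝ a c)
  have e0 : γ 0 = ext k a := by simp [γ]
  have e1 : γ 1 = ext k c := by simp [γ]
  have s0 : s 0 = σ a := by simp [s]
  have s1 : s 1 = σ c := by simp [s]
  rw [← h3, h5, ← s1, h4, e0, e1, s0]

theorem pull_val (S : Sys k W) (hm : m ≤ k) (φ : S.F (base k)) (q : Fin m → ℂ) (hq : q ∈ Gen m) :
    (pull S m hm).val (nm S hm φ) q = S.val φ (ext k q) := by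
  have h1 : segment ℝ (base m) (srt q) ⊆ Ord m :=
    (convex_Ord m).segment_subset (base_mem_Ord m) (srt_mem q hq)
  have h2 : (pull S m hm).val (nm S hm φ) q =
      (pull S m hm).T (base m) (srt q) (S.val φ (ext k (base m))) := rfl
  have hb : ext k (base m) ∈ Ord k := ext_ord _ (base_mem_Ord m)
  have hs : ext k (srt q) ∈ Ord k := ext_ord _ (srt_mem q hq)
  have h3 : S.T (ext k (base m)) (ext k (srt q)) (S.val φ (ext k (base m))) = S.val φ (ext k (srt q)) := by
    refine S.T_val _ _ (Ord_subset_Gen k hb) (Ord_subset_Gen k hs) (fun i j => ?_) φ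
    constructor
    · intro h
      rcases lt_trichotomy i j with h4 | h4 | h4
      · exact hs i j h4
      · subst h4
        exact absurd h (lt_irrefl _)
      · exact absurd (hb j i h4) (not_lt.2 h.le)
    · intro h
      rcases lt_trichotomy i j with h4 | h4 | h4
      · exact hb i j h4
      · subst h4
        exact absurd h (lt_irrefl _)
      · exact absurd (hs j i h4) (not_lt.2 h.le)
  obtain ⟨ρ, hρ⟩ := ext_perm (k := k) hm (Tuple.sort fun i => (q i).re)
  have h5 : ext k (srt q) = ext k q ∘ ρ := hρ q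
  rw [h2, pull_T S hm (base m) (srt q) (h1.trans ((Ord_subset_Gen m).trans (Gen_subset_Conf m))) (Ord k)
    (convex_Ord k) ((Ord_subset_Gen k).trans (Gen_subset_Conf k)) (fun x hx => ext_ord _ (h1 hx)) _
    (S.val_mem φ _ (ext_gen _ (base_gen m))), h3, h5, S.val_perm φ _ (ext_gen q hq)]

end Pool.Agent.Helper93.L6
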