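import Pool.Agent.Helper93.L6.Pull

/-!
# LN6-P2 (MP_730da0_ag): the generators of the system of the first `m` points

Paper proofs.
* `pull_s`: take one crossing `a, c` in `Conf m` at the position `i` (`exists_cross`); `ext k a, ext k c` is a crossing at the position `i` in `Conf k`; the path `t ↦ ext k (lineMap a c t)` and the segment from `ext k a` to
  `ext k c` lie in the same convex subset of `Conf k` (all pairs except `l, m` keep the order of the real parts; `Im` of `l` is smaller than `Im` of `m`), so they give the same transport (`Sys.T_along`); `crossProp_s` for both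
  systems, `pull_val`, `val_inj`.
* `pull_prod`: induction on `n` from `pull_s`.
-/

namespace Pool.Agent.Helper93.L6

open Pool.Agent.Helper2.LN Pool.Agent.Helper96.LN3

variable {k m : ℕ} {W : Type} [TopologicalSpace W]

theorem pull_s (S : Sys k W) (hm : m ≤ k) (i : ℕ) (hi : i + 1 < m) (φ : S.F (base k)) :
    (pull S m hm).s i (nm S hm φ) = nm S hm (S.s i φ) := by
  sorry

theorem pull_prod (S : Sys k W) (hm : m ≤ k) (n : ℕ) (hn : n < m) (φ : S.F (base k)) :
    ((List.range n).map (pull S m hm).s).prod (nm S hm φ) = nm S hm (((List.range n).map S.s).prod φ) := by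
  sorry

theorem pull_A (S : Sys k W) (hm : m ≤ k) (hm2 : 1 ≤ m) (n : ℕ) (φ : S.F (base k)) :
    ((pull S m hm).A ^ n) (nm S hm φ) = nm S hm (((((List.range (m - 1)).map S.s).prod) ^ n) φ) := by
  induction n generalizing φ with
  | zero => rfl
  | succ n ih =>
    rw [pow_succ, Equiv.Perm.mul_apply, pow_succ, Equiv.Perm.mul_apply]
    have h := pull_prod S hm (m - 1) (by omega) φ
    have h2 : (pull S m hm).A (nm S hm φ) = nm S hm (((List.range (m - 1)).map S.s).prod φ) := h
    rw [h2, ih]

end Pool.Agent.Helper93.L6
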